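import Mathlib

/-!
# Positivity certificates
-/

set_option autoImplicit false

namespace Pool.Agent.X91.FA

lemma bern7 {p q c0 c1 c2 c3 c4 c5 c6 c7 : ℝ} (hp : 0 ≤ p) (hq : 0 ≤ q) (h0 : 0 ≤ c0) (h1 : 0 ≤ c1)
    (h2 : 0 ≤ c2) (h3 : 0 ≤ c3) (h4 : 0 ≤ c4) (h5 : 0 ≤ c5) (h6 : 0 ≤ c6) (h7 : 0 ≤ c7) :
    0 ≤ c0 * q ^ 7 + c1 * p * q ^ 6 + c2 * p ^ 2 * q ^ 5 + c3 * p ^ 3 * q ^ 4 + c4 * p ^ 4 * q ^ 3 +
      c5 * p ^ 5 * q ^ 2 + c6 * p ^ 6 * q + c7 * p ^ 7 := by positivity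

lemma nin0 {r : ℝ} (h1 : 0 ≤ r) (h2 : r ≤ (1/4)) :
    0 ≤ (49 / 25 * (r * (1 / 2 + r) ^ 2) + 1859 / 10000 * (27 / 10) * ((1 / 2 + r) * (r + 7 / 10) ^ 2) - 1859 / 10000 * (27 / 20 + (27 / 20) ^ 2) * (r * (r + 7 / 10) ^ 2) + (r * (39 / 2560 * (16 - r ^ 2 / 3)) + 1 / 50 * r - 1) * ((1 / 2 + r) ^ 2 * (r + 7 / 10) ^ 2)) := by
  have hp : 0 ≤ r - 0 := by linarith
  have hq : 0 ≤ (1/4) - r := by linarith
  have h := bern7 (c0 := (605248/78125)) (c1 := (6175484/390625)) (c2 := (41318724/390625)) (c3 := (1430248179/2500000)) (c4 := (391222009/312500)) (c5 := (1310493193/1000000)) (c6 := (4158431139/6250000)) (c7 := (26475147423/200000000)) hp hq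
    (by norm_num) (by norm_num) (by norm_num) (by norm_num) (by norm_num) (by norm_num) (by norm_num) (by norm_num)
  refine h.trans (le_of_eq ?_)
  ring

lemma nin1 {r : ℝ} (h1 : (1/4) ≤ r) (h2 : r ≤ (1/2)) :
    0 ≤ (49 / 25 * (r * (1 / 2 + r) ^ 2) + 1859 / 10000 * (27 / 10) * ((1 / 2 + r) * (r + 7 / 10) ^ 2) - 1859 / 10000 * (27 / 20 + (27 / 20) ^ 2) * (r * (r + 7 / 10) ^ 2) + (r * (39 / 2560 * (16 - r ^ 2 / 3)) + 1 / 50 * r - 1) * ((1 / 2 + r) ^ 2 * (r + 7 / 10) ^ 2)) := by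
  have hp : 0 ≤ r - (1/4) := by linarith
  have hq : 0 ≤ (1/2) - r := by linarith
  have h := bern7 (c0 := (26475147423/200000000)) (c1 := (118791133737/100000000)) (c2 := (222293366189/50000000)) (c3 := (8997288959/1000000)) (c4 := (1664237373/156250)) (c5 := (11551819451/1562500)) (c6 := (1091228172/390625)) (c7 := (173647088/390625)) hp hq
    (by norm_num) (by norm_num) (by norm_num) (by norm_num) (by norm_num) (by norm_num) (by norm_num) (by norm_num)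
  refine h.trans (le_of_eq ?_)
  ring

lemma nin2 {r : ℝ} (h1 : (1/2) ≤ r) (h2 : r ≤ 1) :
    0 ≤ (49 / 25 * (r * (1 / 2 + r) ^ 2) + 1859 / 10000 * (27 / 10) * ((1 / 2 + r) * (r + 7 / 10) ^ 2) - 1859 / 10000 * (27 / 20 + (27 / 20) ^ 2) * (r * (r + 7 / 10) ^ 2) + (r * (39 / 2560 * (16 - r ^ 2 / 3)) + 1 / 50 * r - 1) * ((1 / 2 + r) ^ 2 * (r + 7 / 10) ^ 2)) := by
  have hp : 0 ≤ r - (1/2) := by linarith
  have hq : 0 ≤ 1 - r := by linarith
  have h := bern7 (c0 := (10852943/3125000)) (c1 := (183016563/6250000)) (c2 := (5086904891/50000000)) (c3 := (378297441/2000000)) (c4 := (8194324627/40000000)) (c5 := (13151366861/100000000)) (c6 := (2384138469/50000000)) (c7 := (195045183/25000000)) hp hq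
    (by norm_num) (by norm_num) (by norm_num) (by norm_num) (by norm_num) (by norm_num) (by norm_num) (by norm_num)
  refine h.trans (le_of_eq ?_)
  ring

lemma nin3 {r : ℝ} (h1 : 1 ≤ r) (h2 : r ≤ 2) :
    0 ≤ (49 / 25 * (r * (1 / 2 + r) ^ 2) + 1859 / 10000 * (27 / 10) * ((1 / 2 + r) * (r + 7 / 10) ^ 2) - 1859 / 10000 * (27 / 20 + (27 / 20) ^ 2) * (r * (r + 7 / 10) ^ 2) + (r * (39 / 2560 * (16 - r ^ 2 / 3)) + 1 / 50 * r - 1) * ((1 / 2 + r) ^ 2 * (r + 7 / 10) ^ 2)) := by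
  have hp : 0 ≤ r - 1 := by linarith
  have hq : 0 ≤ 2 - r := by linarith
  have h := bern7 (c0 := (195045183/3200000000)) (c1 := (855905187/1600000000)) (c2 := (3550207003/1600000000)) (c3 := (46894711/8000000)) (c4 := (6628269723/640000000)) (c5 := (18266823869/1600000000)) (c6 := (5481378291/800000000)) (c7 := (667841057/400000000)) hp hq
    (by norm_num) (by norm_num) (by norm_num) (by norm_num) (by norm_num) (by norm_num) (by norm_num) (by norm_num)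
  refine h.trans (le_of_eq ?_)
  ring

lemma nin4 {r : ℝ} (h1 : 2 ≤ r) (h2 : r ≤ 4) :
    0 ≤ (49 / 25 * (r * (1 / 2 + r) ^ 2) + 1859 / 10000 * (27 / 10) * ((1 / 2 + r) * (r + 7 / 10) ^ 2) - 1859 / 10000 * (27 / 20 + (27 / 20) ^ 2) * (r * (r + 7 / 10) ^ 2) + (r * (39 / 2560 * (16 - r ^ 2 / 3)) + 1 / 50 * r - 1) * ((1 / 2 + r) ^ 2 * (r + 7 / 10) ^ 2)) := by
  have hp : 0 ≤ r - 2 := by linarith
  have hq : 0 ≤ 4 - r := by linarith
  have h := bern7 (c0 := (667841057/51200000000)) (c1 := (4271641953/25600000000)) (c2 := (11455993601/12800000000)) (c3 := (131984739/51200000)) (c4 := (43443770617/10240000000)) (c5 := (99884086451/25600000000)) (c6 := (45575843283/25600000000)) (c7 := (1788269913/6400000000)) hp hq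
    (by norm_num) (by norm_num) (by norm_num) (by norm_num) (by norm_num) (by norm_num) (by norm_num) (by norm_num)
  refine h.trans (le_of_eq ?_)
  ring

lemma nout0 {r : ℝ} (h1 : 4 ≤ r) (h2 : r ≤ 7) :
    0 ≤ (49 / 25 * (r * (1 / 2 + r) ^ 2) + 1859 / 10000 * (27 / 10) * ((1 / 2 + r) * (r + 7 / 10) ^ 2) - 1859 / 10000 * (27 / 20 + (27 / 20) ^ 2) * (r * (r + 7 / 10) ^ 2) + (13 / 20 + 1 / 50 * r - 1) * ((1 / 2 + r) ^ 2 * (r + 7 / 10) ^ 2)) := by
  have hp : 0 ≤ r - 4 := by linarith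
  have hq : 0 ≤ 7 - r := by linarith
  have h := bern7 (c0 := (66232219/4050000000)) (c1 := (1402842691/10800000000)) (c2 := (20798901299/48600000000)) (c3 := (14714373673/19440000000)) (c4 := (755388679/972000000)) (c5 := (45376694581/97200000000)) (c6 := (7530869227/48600000000)) (c7 := (2213835043/97200000000)) hp hq
    (by norm_num) (by norm_num) (by norm_num) (by norm_num) (by norm_num) (by norm_num) (by norm_num) (by norm_num)
  refine h.trans (le_of_eq ?_)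
  ring

lemma nout_far {r : ℝ} (h1 : 7 ≤ r) :
    0 ≤ (49 / 25 * (r * (1 / 2 + r) ^ 2) + 1859 / 10000 * (27 / 10) * ((1 / 2 + r) * (r + 7 / 10) ^ 2) - 1859 / 10000 * (27 / 20 + (27 / 20) ^ 2) * (r * (r + 7 / 10) ^ 2) + (13 / 20 + 1 / 50 * r - 1) * ((1 / 2 + r) ^ 2 * (r + 7 / 10) ^ 2)) := by
  obtain ⟨p, hp, rfl⟩ : ∃ p : ℝ, 0 ≤ p ∧ r = 7 + p := ⟨r - 7, by linarith, by ring⟩
  have h : 0 ≤ (19924515387/400000000) * p ^ 0 + (1305320541/400000000) * p ^ 1 + (18709997/5000000) * p ^ 2 + (9675849/4000000) * p ^ 3 + (199/500) * p ^ 4 + (1/50) * p ^ 5 := by positivity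
  refine h.trans (le_of_eq ?_)
  ring

end Pool.Agent.X91.FA
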