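import Mathlib

/-!
# The Fermi-Amaldi TFW functional of an atom

`E3` is `ℝ³`. A density is a pair: `ρ ≥ 0` in `L¹ ∩ L^{5/3}`, and `g ∈ L²`, the weak gradient of `√ρ`.
The constants are `A = 0.1859` and `γ = (3π²)^{2/3}`; the Coulomb potential of the nucleus is `z/|x|`.
-/

set_option autoImplicit false

open MeasureTheory

namespace Pool.Agent.X91.FA

/-- `ℝ³` -/
abbrev R3 := EuclideanSpace ℝ (Fin 3)

/-- the Thomas-Fermi constant `γ = (3π²)^{2/3}` -/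
noncomputable def gam : ℝ := (3 * Real.pi ^ 2) ^ ((2 : ℝ) / 3)

/-- `ρ` is an admissible density and `g` is the weak gradient of `√ρ` -/
structure Admis (ρ : R3 → ℝ) (g : R3 → R3) : Prop where
  nn : ∀ x, 0 ≤ ρ x
  int : Integrable ρ
  int53 : Integrable (fun x => ρ x ^ (5/3 : ℝ))
  gl : MemLp g 2
  wg : ∀ φ : R3 → ℝ, ContDiff ℝ (⊤ : ℕ∞) φ → HasCompactSupport φ → ∀ v : R3,
    ∫ x, Real.sqrt (ρ x) * fderiv ℝ φ x v = -∫ x, inner ℝ (g x) v * φ x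

/-- the Fermi-Amaldi TFW energy `A ∫|∇√ρ|² + (3/5) γ ∫ ρ^{5/3} - ∫ (z/|x|) ρ + (1 - 1/N) D(ρ,ρ)`,
with `D(ρ,ρ) = (1/2) ∬ ρ(x)ρ(y)/|x-y|`, `A = 0.1859` (for `N = 1` the last term vanishes) -/
noncomputable def EFA (z N : ℕ) (ρ : R3 → ℝ) (g : R3 → R3) : ℝ :=
  1859 / 10000 * (∫ x, ‖g x‖ ^ 2) + 3 / 5 * gam * (∫ x, ρ x ^ (5/3 : ℝ))
    - (∫ x, (z : ℝ) / ‖x‖ * ρ x)
    + (1 - 1 / (N : ℝ)) * (1 / 2 * ∫ x, ∫ y, ρ x * ρ y / ‖x - y‖)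

/-- the energies of the admissible densities of mass `N` -/
def Vals (z N : ℕ) : Set ℝ :=
  {e | ∃ (ρ : R3 → ℝ) (g : R3 → R3), Admis ρ g ∧ ∫ x, ρ x = (N : ℝ) ∧ e = EFA z N ρ g}

/-- the ground state energy `E(N)` for nuclear charge `z` -/
noncomputable def Egs (z N : ℕ) : ℝ := sInf (Vals z N)

end Pool.Agent.X91.FA
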