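import Pool.Agent.X91.TW.Dens

/-!
# Approximation of admissible densities, with separate control of every term
-/

set_option autoImplicit false

open MeasureTheory Set Filter Topology
open scoped RealInnerProductSpace ContDiff ENNReal

namespace Pool.Agent.X91.FA

open Pool.Agent.X91.TW
open Pool.Agent.Helper436.TFW (Adm Kin Pot TFe Mass Dir UB)
open Pool.Agent.Helper557.TFP (Nice pot nice_bound TF_E1_meas TF_E1_bdd TF_E1_int TF_E1_dbl
  TF_E1_symm TF_E1_potsub)

/-- **Approximation.** -/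
theorem dens2 {k : ℕ} (z : Fin k → ℝ) (hz : ∀ i, 0 ≤ z i) (R : Fin k → E3) {σ : E3 → ℝ}
    {h : E3 → E3} (H : AP σ h) :
    ∃ v : ℕ → E3 → ℝ, (∀ n, Adm (v n)) ∧ (∀ n x, 0 ≤ v n x) ∧ (∀ n, Mass (v n) ≤ ∫ x, σ x) ∧
      (∀ᵐ x, Tendsto (fun n => v n x ^ 2) atTop (𝓝 (σ x))) ∧
      Tendsto (fun n => ∫ x, |v n x ^ 2 - σ x|) atTop (𝓝 0) ∧
      (∀ n, TFe (v n) ≤ ∫ x, σ x ^ (5/3 : ℝ)) ∧
      ∀ ε : ℝ, 0 < ε → ∀ᶠ n in atTop, Kin (v n) ≤ (∫ x, ‖h x‖ ^ 2) + ε / 4 ∧
        (∑ i, z i * pot σ (R i)) - ε / 4 ≤ ∑ i, z i * Pot (R i) (v n) ∧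
        Dir (v n) ≤ (∫ x, ∫ y, σ x * σ y / ‖x - y‖) + ε / 4 := by
  have hu2 : MemLp (fun x => √(σ x)) 2 := by
    rw [memLp_two_iff_integrable_sq (H.ms.sqrt.aestronglyMeasurable)]
    simpa only [Real.sq_sqrt (H.nn _)] using H.int
  obtain ⟨w, hwd, hw0, hwlim, hwq, hwg⟩ := Pool.Agent.Helper149.Mollify.exists_mollify
    (fun x => √(σ x)) h (fun x => Real.sqrt_nonneg _) (hu2.locallyIntegrable (by norm_num))
    (H.gl.locallyIntegrable (by norm_num)) H.wg
  obtain ⟨χ, C, hC0, hχd, hχs, hχ0, hχ1, hχlim, hχg⟩ :=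
    Pool.Agent.Helper149.Sobolev.exists_cutoff
  set v : ℕ → E3 → ℝ := fun n x => χ n x * w n x with hv
  have hva : ∀ n, Adm (v n) := fun n =>
    ⟨((hχd n).mul (hwd n)).of_le (by exact_mod_cast le_top), (hχs n).mul_right⟩
  have hv0 : ∀ n x, 0 ≤ v n x := fun n x => mul_nonneg (hχ0 n x) (hw0 n x)
  have hvw : ∀ n x, v n x ≤ w n x := fun n x => mul_le_of_le_one_left (hw0 n x) (hχ1 n x)
  -- lintegral bounds
  have hS : ∫⁻ x, ‖√(σ x)‖ₑ ^ (2:ℝ) = ENNReal.ofReal (∫ x, σ x) := by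
    rw [ofReal_integral_eq_lintegral_ofReal H.int (ae_of_all _ H.nn)]
    refine lintegral_congr fun x => ?_
    rw [Real.enorm_of_nonneg (Real.sqrt_nonneg _), ENNReal.ofReal_rpow_of_nonneg
      (Real.sqrt_nonneg _) (by norm_num)]
    congr 1
    rw [Real.rpow_two, Real.sq_sqrt (H.nn x)]
  have hT : ∫⁻ x, ‖√(σ x)‖ₑ ^ ((10:ℝ)/3) = ENNReal.ofReal (∫ x, σ x ^ (5/3 : ℝ)) := by
    rw [ofReal_integral_eq_lintegral_ofReal H.int53 (ae_of_all _ fun x => Real.rpow_nonneg (H.nn x) _)]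
    refine lintegral_congr fun x => ?_
    rw [Real.enorm_of_nonneg (Real.sqrt_nonneg _), ENNReal.ofReal_rpow_of_nonneg
      (Real.sqrt_nonneg _) (by norm_num)]
    congr 1
    rw [Real.sqrt_eq_rpow, ← Real.rpow_mul (H.nn x)]
    norm_num
  have hG : ∫⁻ x, ‖h x‖ₑ ^ (2:ℝ) = ENNReal.ofReal (∫ x, ‖h x‖ ^ 2) := by
    rw [ofReal_integral_eq_lintegral_ofReal H.glint (ae_of_all _ fun x => by positivity)]
    refine lintegral_congr fun x => ?_
    rw [← ofReal_norm, ENNReal.ofReal_rpow_of_nonneg (norm_nonneg _) (by norm_num)]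
    congr 1
    rw [Real.rpow_two]
  have hwint : ∀ n, Integrable (fun x => w n x ^ 2) ∧ ∫ x, w n x ^ 2 ≤ ∫ x, σ x := by
    intro n
    refine Pool.Agent.Helper149.Fatou.integrable_of_lintegral_le
      ((hwd n).continuous.pow 2).aestronglyMeasurable (fun x => sq_nonneg _) H.int H.nn ?_
    rw [← ofReal_integral_eq_lintegral_ofReal H.int (ae_of_all _ H.nn), ← hS]
    refine le_trans (le_of_eq (lintegral_congr fun x => ?_)) (hwq n 2 (by norm_num))
    rw [Real.enorm_of_nonneg (hw0 n x), ENNReal.ofReal_rpow_of_nonneg (hw0 n x) (by norm_num)]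
    congr 1
    rw [Real.rpow_two]
  have hwgint : ∀ n, Integrable (fun x => ‖fderiv ℝ (w n) x‖ ^ 2) ∧
      ∫ x, ‖fderiv ℝ (w n) x‖ ^ 2 ≤ ∫ x, ‖h x‖ ^ 2 := by
    intro n
    refine Pool.Agent.Helper149.Fatou.integrable_of_lintegral_le
      (((hwd n).continuous_fderiv (by simp)).norm.pow 2).aestronglyMeasurable
      (fun x => by positivity) H.glint (fun x => by positivity) ?_
    rw [← ofReal_integral_eq_lintegral_ofReal H.glint (ae_of_all _ fun x => by positivity),
      ← hG]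
    refine le_trans (le_of_eq (lintegral_congr fun x => ?_)) (hwg n 2 (by norm_num))
    rw [← ofReal_norm, ENNReal.ofReal_rpow_of_nonneg (norm_nonneg _) (by norm_num)]
    congr 1
    rw [Real.rpow_two]
  have hmass : ∀ n, Mass (v n) ≤ ∫ x, σ x := by
    intro n
    refine le_trans (integral_mono (hva n).sq_int (hwint n).1 fun x => ?_) (hwint n).2
    exact pow_le_pow_left₀ (hv0 n x) (hvw n x) 2
  have hlim : ∀ᵐ x, Tendsto (fun n => v n x ^ 2) atTop (𝓝 (σ x)) := by
    filter_upwards [hwlim] with x hx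
    have h1 : Tendsto (fun n => v n x) atTop (𝓝 (√(σ x))) := by
      refine hx.congr' ?_
      filter_upwards [hχlim x] with n hn
      rw [hv]
      simp only
      rw [hn, one_mul]
    have h2 := h1.pow 2
    rwa [Real.sq_sqrt (H.nn x)] at h2
  have hsch : Tendsto (fun n => ∫ x, |v n x ^ 2 - σ x|) atTop (𝓝 0) :=
    scheffe (fun n x => sq_nonneg _) (fun n => (hva n).sq_int) H.int H.nn hmass hlim
  -- Thomas-Fermi term
  have htf : ∀ n, TFe (v n) ≤ ∫ x, σ x ^ (5/3 : ℝ) := by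
    intro n
    refine (Pool.Agent.Helper149.Fatou.integrable_of_lintegral_le
      ((hva n).tf_int.aestronglyMeasurable) (fun x => by positivity) H.int53
      (fun x => Real.rpow_nonneg (H.nn x) _) ?_).2
    rw [← ofReal_integral_eq_lintegral_ofReal H.int53
      (ae_of_all _ fun x => Real.rpow_nonneg (H.nn x) _), ← hT]
    refine le_trans (lintegral_mono fun x => ?_) (hwq n ((10:ℝ)/3) (by norm_num))
    rw [Real.enorm_of_nonneg (hw0 n x), ENNReal.ofReal_rpow_of_nonneg (hw0 n x) (by norm_num)]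
    apply ENNReal.ofReal_le_ofReal
    rw [abs_of_nonneg (hv0 n x)]
    exact Real.rpow_le_rpow (hv0 n x) (hvw n x) (by norm_num)
  refine ⟨v, hva, hv0, hmass, hlim, hsch, htf, fun ε hε => ?_⟩
  -- kinetic energy
  set A := ∫ x, ‖h x‖ ^ 2 with hA
  set S := ∫ x, σ x with hSS
  have hA0 : 0 ≤ A := integral_nonneg fun x => by positivity
  have hS0 : 0 ≤ S := integral_nonneg H.nn
  set M := A + 2 * C ^ 2 * S with hM
  have hkin : ∀ n, Kin (v n) ≤ A + M / ((n : ℝ) + 1) := by
    intro n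
    have hn : (0 : ℝ) < (n : ℝ) + 1 := by positivity
    refine kin_le_of n ?_ hS0 hM
    have h1 : Kin (v n) ≤ ∫ x, ((1 + 1 / ((n : ℝ) + 1)) * ‖fderiv ℝ (w n) x‖ ^ 2 +
        (1 + 1 / (1 / ((n : ℝ) + 1))) * (C / ((n : ℝ) + 1)) ^ 2 * w n x ^ 2) := by
      unfold Kin
      refine integral_mono (hva n).kin_int
        (((hwgint n).1.const_mul _).add ((hwint n).1.const_mul _)) fun x => ?_
      exact kin_cut ((hχd n).of_le (by exact_mod_cast le_top))
        ((hwd n).of_le (by exact_mod_cast le_top)) (hχ0 n) (hχ1 n) (by positivity)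
        (by positivity) (hχg n) x
    rw [integral_add ((hwgint n).1.const_mul _) ((hwint n).1.const_mul _), integral_const_mul,
      integral_const_mul] at h1
    refine h1.trans (add_le_add ?_ ?_)
    · exact mul_le_mul_of_nonneg_left (hwgint n).2 (by positivity)
    · exact mul_le_mul_of_nonneg_left (hwint n).2 (by positivity)
  have hkinlim : ∀ᶠ n in atTop, Kin (v n) ≤ A + ε / 4 := by
    have h1 : Tendsto (fun n : ℕ => M / ((n : ℝ) + 1)) atTop (𝓝 0) := by
      have := tendsto_one_div_add_atTop_nhds_zero_nat.const_mul M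
      simp only [mul_zero] at this
      refine this.congr fun n => by ring
    filter_upwards [h1.eventually (gt_mem_nhds (by positivity : (0:ℝ) < ε / 4))] with n hn
    linarith [hkin n]
  -- attraction
  have hpot : ∀ᶠ n in atTop, (∑ i, z i * pot σ (R i)) - ε / 4 ≤ ∑ i, z i * Pot (R i) (v n) := by
    set Z := ∑ i, z i with hZ
    have hZ0 : 0 ≤ Z := Finset.sum_nonneg fun i _ => hz i
    have h1 : ∀ i, ∀ᶠ n in atTop, pot σ (R i) - ε / (4 * (Z + 1)) < Pot (R i) (v n) := by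
      intro i
      rw [← pot_eq]
      refine fatou_ev (fun n x => by positivity) (fun n => (hva n).pot_int (R i))
        (pot_int_of_nice H.nice (R i)) ?_ (by positivity)
      filter_upwards [hlim] with x hx
      exact hx.div_const _
    filter_upwards [eventually_all.mpr h1] with n hn
    have h2 : ∑ i, z i * (pot σ (R i) - ε / (4 * (Z + 1))) ≤ ∑ i, z i * Pot (R i) (v n) :=
      Finset.sum_le_sum fun i _ => mul_le_mul_of_nonneg_left (hn i).le (hz i)
    have h3 : ∑ i, z i * (pot σ (R i) - ε / (4 * (Z + 1))) =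
        (∑ i, z i * pot σ (R i)) - Z * (ε / (4 * (Z + 1))) := by
      rw [hZ, Finset.sum_mul, ← Finset.sum_sub_distrib]
      exact Finset.sum_congr rfl fun i _ => by ring
    have h4 : Z * (ε / (4 * (Z + 1))) ≤ ε / 4 := by
      rw [mul_div_assoc', div_le_div_iff₀ (by positivity) (by norm_num)]
      nlinarith
    linarith
  -- repulsion
  have hdir : ∀ᶠ n in atTop, Dir (v n) ≤ (∫ x, ∫ y, σ x * σ y / ‖x - y‖) + ε / 4 := by
    obtain ⟨B1, hB1⟩ := TF_E1_bdd σ H.nice
    have hKb : ∀ n, Kin (v n) ≤ A + M := by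
      intro n
      refine (hkin n).trans ?_
      have hM0 : 0 ≤ M := by positivity
      have : M / ((n : ℝ) + 1) ≤ M := div_le_self hM0 (by linarith [(Nat.cast_nonneg n : (0:ℝ) ≤ (n:ℝ))])
      linarith
    set B2 := √(A + M) * √S + 3 / 2 * S with hB2
    have hUb : ∀ n x, pot (fun y => v n y ^ 2) x ≤ B2 := by
      intro n x
      rw [← Pot_eq_pot]
      refine ((hva n).pot_le x).trans ?_
      unfold UB
      have h1 : √(Kin (v n)) ≤ √(A + M) := Real.sqrt_le_sqrt (hKb n)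
      have h2 : √(Mass (v n)) ≤ √S := Real.sqrt_le_sqrt (hmass n)
      have h3 := hmass n
      have h4 := Real.sqrt_nonneg (Kin (v n))
      have h5 := Real.sqrt_nonneg (Mass (v n))
      have h6 : √(Kin (v n)) * √(Mass (v n)) ≤ √(A + M) * √S :=
        mul_le_mul h1 h2 h5 (Real.sqrt_nonneg _)
      linarith
    have hBn : 0 ≤ |B1| + |B2| := by positivity
    have h1 : Tendsto (fun n => (|B1| + |B2|) * ∫ x, |v n x ^ 2 - σ x|) atTop (𝓝 0) := by
      simpa using hsch.const_mul (|B1| + |B2|)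
    filter_upwards [h1.eventually (gt_mem_nhds (by positivity : (0:ℝ) < ε / 4))] with n hn
    have hvn := adm_nice (hva n)
    have e1 : (∫ x, ∫ y, σ x * σ y / ‖x - y‖) = ∫ x, σ x * pot σ x := TF_E1_dbl σ σ
    rw [Dir_eq, e1]
    have i1 := TF_E1_int _ _ hvn.2.1 hvn
    have i2 := TF_E1_int _ _ H.nice.2.1 H.nice
    have i3 := TF_E1_int _ _ hvn.2.1 H.nice
    have i4 := TF_E1_int _ _ H.nice.2.1 hvn
    have e2 := TF_E1_symm _ _ hvn H.nice
    have hdn : Integrable (fun x => |v n x ^ 2 - σ x|) := ((hva n).sq_int.sub H.int).abs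
    have e4 : ∀ x, (v n x ^ 2 - σ x) * (pot (fun y => v n y ^ 2) x + pot σ x) =
        v n x ^ 2 * pot (fun y => v n y ^ 2) x + 1 * (v n x ^ 2 * pot σ x) +
        (-1) * (σ x * pot (fun y => v n y ^ 2) x) + (-1) * (σ x * pot σ x) := fun x => by ring
    have e3 : (∫ x, v n x ^ 2 * pot (fun y => v n y ^ 2) x) - ∫ x, σ x * pot σ x =
        ∫ x, (v n x ^ 2 - σ x) * (pot (fun y => v n y ^ 2) x + pot σ x) := by
      simp only [e4]
      rw [(lin4 i1 i3 i4 i2 1 (-1) (-1)).2, e2]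
      ring
    have iL : Integrable (fun x => (v n x ^ 2 - σ x) * (pot (fun y => v n y ^ 2) x + pot σ x)) := by
      simp only [e4]
      exact (lin4 i1 i3 i4 i2 1 (-1) (-1)).1
    have e5 : ∫ x, (v n x ^ 2 - σ x) * (pot (fun y => v n y ^ 2) x + pot σ x) ≤
        (|B1| + |B2|) * ∫ x, |v n x ^ 2 - σ x| := by
      rw [← integral_const_mul]
      refine integral_mono iL (hdn.const_mul _) fun x => ?_
      simp only
      have p1 : 0 ≤ pot (fun y => v n y ^ 2) x := pot_nn (fun y => sq_nonneg _) x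
      have p2 : 0 ≤ pot σ x := pot_nn H.nn x
      have p3 := hUb n x
      have p4 := hB1 x
      have p5 : pot (fun y => v n y ^ 2) x + pot σ x ≤ |B1| + |B2| := by
        have := le_abs_self B2
        have := le_abs_self B1
        have := le_abs_self (pot σ x)
        linarith
      calc (v n x ^ 2 - σ x) * (pot (fun y => v n y ^ 2) x + pot σ x)
          ≤ |v n x ^ 2 - σ x| * (pot (fun y => v n y ^ 2) x + pot σ x) :=
            mul_le_mul_of_nonneg_right (le_abs_self _) (by linarith)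
        _ ≤ |v n x ^ 2 - σ x| * (|B1| + |B2|) := mul_le_mul_of_nonneg_left p5 (abs_nonneg _)
        _ = _ := by ring
    linarith
  filter_upwards [hkinlim, hpot, hdir] with n h1 h2 h3
  exact ⟨h1, h2, h3⟩

end Pool.Agent.X91.FA
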