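import Pool.Agent.X91.TW.Shell

/-!
# A Hardy type lower bound for the kinetic energy
-/

set_option autoImplicit false

open MeasureTheory Set Filter Topology Metric
open scoped RealInnerProductSpace ContDiff

namespace Pool.Agent.X91.FA

open Pool.Agent.X91.TW
open Pool.Agent.Helper436.TFW (Adm Kin Pot TFe Mass Dir)

/-- integration by parts against a radial field -/
lemma ibp_rad2 {g : E3 → ℝ} (hg : ContDiff ℝ 1 g) (hgs : HasCompactSupport g) {a : ℝ} (ha : 0 < a)
    {k : ℝ → ℝ} (hk : ContDiff ℝ 1 k) (hkl : ∀ s, s ≤ a → k s = 0) :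
    ∫ x, fderiv ℝ g x x * k ‖x‖ = -∫ x, (3 * k ‖x‖ + deriv k ‖x‖ * ‖x‖) * g x := by
  set K : E3 → ℝ := fun x => k ‖x‖ with hK
  have hKc : ContDiff ℝ 1 K := rad_cd ha hk hkl
  set e : Fin 3 → E3 := fun i => EuclideanSpace.single i (1 : ℝ) with he
  set f : Fin 3 → E3 → ℝ := fun i x => x i * K x with hf
  have hproj : ∀ i : Fin 3, ContDiff ℝ 1 (fun x : E3 => x i) := fun i => by
    exact (EuclideanSpace.proj i : E3 →L[ℝ] ℝ).contDiff
  have hfc : ∀ i, ContDiff ℝ 1 (f i) := fun i => (hproj i).mul hKc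
  have hgd : Continuous (fderiv ℝ g) := hg.continuous_fderiv (by norm_num)
  have key : ∀ i : Fin 3, ∫ x, f i x * fderiv ℝ g x (e i) =
      -∫ x, fderiv ℝ (f i) x (e i) * g x := fun i => ibp (hfc i) hg hgs _
  have i1 : ∀ i : Fin 3, Integrable (fun x => fderiv ℝ (f i) x (e i) * g x) := fun i =>
    ((((hfc i).continuous_fderiv (by norm_num)).clm_apply continuous_const).mul
      hg.continuous).integrable_of_hasCompactSupport hgs.mul_left
  have i2 : ∀ i : Fin 3, Integrable (fun x => f i x * fderiv ℝ g x (e i)) := fun i => by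
    refine ((hfc i).continuous.mul (hgd.clm_apply
      continuous_const)).integrable_of_hasCompactSupport ?_
    exact HasCompactSupport.mul_left ((hgs.fderiv ℝ).comp_left
      (g := fun L : E3 →L[ℝ] ℝ => L (e i)) rfl)
  have hsum : ∑ i, ∫ x, f i x * fderiv ℝ g x (e i) =
      -∑ i, ∫ x, fderiv ℝ (f i) x (e i) * g x := by
    rw [← Finset.sum_neg_distrib]
    exact Finset.sum_congr rfl fun i _ => key i
  rw [← integral_finsetSum _ (fun i _ => i1 i), ← integral_finsetSum _ (fun i _ => i2 i)] at hsum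
  have hx : ∀ x : E3, x = ∑ i, x i • e i := by
    intro x
    ext j
    simp [he, Finset.sum_apply, Pi.single_apply]
  have hlin : ∀ (L : E3 →L[ℝ] ℝ) (x : E3), L x = ∑ i, x i * L (e i) := by
    intro L x
    conv_lhs => rw [hx x]
    rw [map_sum]
    simp
  have e1 : ∀ x : E3, ∑ i, f i x * fderiv ℝ g x (e i) = fderiv ℝ g x x * K x := by
    intro x
    rw [hlin (fderiv ℝ g x) x, Finset.sum_mul]
    refine Finset.sum_congr rfl fun i _ => ?_
    simp only [hf]
    ring
  have e2 : ∀ x : E3, ∑ i, fderiv ℝ (f i) x (e i) * g x =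
      (3 * k ‖x‖ + deriv k ‖x‖ * ‖x‖) * g x := by
    intro x
    have hd1 : ∀ i : Fin 3, fderiv ℝ (f i) x (e i) = K x + x i * fderiv ℝ K x (e i) := by
      intro i
      have h1 : HasFDerivAt (fun x : E3 => x i) (EuclideanSpace.proj i : E3 →L[ℝ] ℝ) x :=
        (EuclideanSpace.proj i : E3 →L[ℝ] ℝ).hasFDerivAt
      have h2 : HasFDerivAt K (fderiv ℝ K x) x := (hKc.differentiable (by norm_num) x).hasFDerivAt
      have h4 : fderiv ℝ (f i) x = _ := (h1.mul h2).fderiv
      rw [h4]
      simp [he]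
      ring
    rw [← Finset.sum_mul]
    congr 1
    rw [Finset.sum_congr rfl (fun i _ => hd1 i), Finset.sum_add_distrib, ← hlin (fderiv ℝ K x) x,
      hK, rad_fd ha hk hkl, real_inner_self_eq_norm_sq]
    by_cases hx0 : x = 0
    · subst hx0
      simp
    · have hr : 0 < ‖x‖ := norm_pos_iff.mpr hx0
      simp
      field_simp
  simp only [e1, e2] at hsum
  exact hsum

/-- the slope -/
noncomputable def fs (b c r : ℝ) : ℝ := b / (c + r)

/-- the effective potential -/
noncomputable def Wf (b c r : ℝ) : ℝ := 2 * b / (r * (c + r)) - (b + b ^ 2) / (c + r) ^ 2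

variable {b c a : ℝ}

/-- the cut-off profile of the field -/
noncomputable def ka (a b c r : ℝ) : ℝ := Sm (r / a - 1) * (b / (r * (c + r)))

lemma chi_lo (ha : 0 < a) {r : ℝ} (hr : r ≤ a) : Sm (r / a - 1) = 0 := by
  apply Sm_zero
  have : r / a ≤ 1 := by rw [div_le_one ha]; exact hr
  linarith

lemma ka_lo (ha : 0 < a) {r : ℝ} (hr : r ≤ a) : ka a b c r = 0 := by
  unfold ka; rw [chi_lo ha hr, zero_mul]

lemma chi_hd (a r : ℝ) : HasDerivAt (fun r => Sm (r / a - 1)) (dS (r / a - 1) / a) r := by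
  have h2 : HasDerivAt (fun r : ℝ => r / a - 1) (1 / a) r :=
    ((hasDerivAt_id r).div_const a).sub_const 1
  refine ((Sm_hd (r / a - 1)).comp r h2).congr_deriv ?_
  ring

lemma ka_cd (ha : 0 < a) (hc : 0 < c) : ContDiff ℝ 1 (ka a b c) := by
  rw [contDiff_iff_contDiffAt]
  intro r
  by_cases hr : r < a
  · have h1 : (ka a b c) =ᶠ[𝓝 r] fun _ => 0 := by
      filter_upwards [Iio_mem_nhds hr] with s hs
      exact ka_lo ha (le_of_lt hs)
    exact contDiffAt_const.congr_of_eventuallyEq h1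
  · have h0 : 0 < r := lt_of_lt_of_le ha (not_lt.mp hr)
    unfold ka
    refine ContDiffAt.mul ?_ ?_
    · exact (Sm_cd.comp ((contDiff_id.div_const a).sub contDiff_const)).contDiffAt
    · exact contDiffAt_const.div (contDiffAt_id.mul (contDiffAt_const.add contDiffAt_id))
        (mul_ne_zero h0.ne' (by simp; linarith))

lemma ka_deriv (hc : 0 < c) {r : ℝ} (hr : 0 < r) :
    3 * ka a b c r + deriv (ka a b c) r * r =
      Sm (r / a - 1) * (2 * b / (r * (c + r)) - b / (c + r) ^ 2) +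
        dS (r / a - 1) / a * (b / (c + r)) := by
  have hcr : 0 < c + r := by linarith
  have h1 : HasDerivAt (fun r : ℝ => r * (c + r)) (1 * (c + r) + r * 1) r :=
    (hasDerivAt_id r).mul ((hasDerivAt_id r).const_add c)
  have h2 := ((hasDerivAt_const r b).div h1 (by positivity))
  have h3 := (chi_hd a r).mul h2
  have h4 : deriv (ka a b c) r = _ := h3.deriv
  rw [h4]
  unfold ka
  simp only [Pi.div_apply]
  field_simp
  ring

lemma vW_int {v : E3 → ℝ} (hv : Adm v) (hb : 0 < b) (hc : 0 < c) :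
    Integrable (fun x => v x ^ 2 * |Wf b c ‖x‖|) := by
  have i1 : Integrable (fun x => v x ^ 2 / ‖x‖) := by
    have := hv.pot_int 0
    simpa using this
  have i2 := hv.sq_int
  have hm : Measurable (fun x : E3 => |Wf b c ‖x‖|) := by
    unfold Wf
    fun_prop
  refine ((i1.const_mul (2 * b / c)).add (i2.const_mul ((b + b ^ 2) / c ^ 2))).mono'
    (hv.sq_cont.measurable.mul hm).aestronglyMeasurable (ae_of_all _ fun x => ?_)
  rw [Real.norm_eq_abs, abs_mul, abs_abs, abs_of_nonneg (sq_nonneg (v x))]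
  simp only [Pi.add_apply]
  have hn := norm_nonneg x
  have h1 : |Wf b c ‖x‖| ≤ 2 * b / c * (1 / ‖x‖) + (b + b ^ 2) / c ^ 2 := by
    unfold Wf
    refine (abs_sub _ _).trans (add_le_add ?_ ?_)
    · rw [abs_of_nonneg (by positivity)]
      rcases eq_or_lt_of_le hn with h0 | h0
      · rw [← h0]; simp
      · rw [div_mul_div_comm, mul_one]
        apply div_le_div_of_nonneg_left (by positivity) (by positivity)
        nlinarith
    · rw [abs_of_nonneg (by positivity)]
      apply div_le_div_of_nonneg_left (by positivity) (by positivity)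
      nlinarith
  calc v x ^ 2 * |Wf b c ‖x‖| ≤ v x ^ 2 * (2 * b / c * (1 / ‖x‖) + (b + b ^ 2) / c ^ 2) :=
        mul_le_mul_of_nonneg_left h1 (sq_nonneg _)
    _ = _ := by ring

lemma kin_cut_ineq {v : E3 → ℝ} (hv : Adm v) (hb : 0 < b) (hc : 0 < c) (ha : 0 < a) :
    ∫ x, v x ^ 2 * (Sm (‖x‖ / a - 1) * Wf b c ‖x‖) ≤ Kin v := by
  have hv2 : ContDiff ℝ 1 (fun x => v x ^ 2) := hv.cd.pow 2
  have hkl : ∀ s, s ≤ a → ka a b c s = 0 := fun s hs => ka_lo ha hs
  have hkc := ka_cd (a := a) (b := b) (c := c) ha hc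
  have h1 := ibp_rad2 hv2 hv.sq_cs ha hkc hkl
  have hKc : Continuous (fun x : E3 => ka a b c ‖x‖) := hkc.continuous.comp continuous_norm
  have hdKc : Continuous (fun x : E3 => deriv (ka a b c) ‖x‖) :=
    (hkc.continuous_deriv (by norm_num)).comp continuous_norm
  have hfd : ∀ x, fderiv ℝ (fun x => v x ^ 2) x x = 2 * v x * fderiv ℝ v x x := by
    intro x
    have h2 : HasFDerivAt v (fderiv ℝ v x) x := (hv.cd.differentiable (by norm_num) x).hasFDerivAt
    rw [(h2.pow 2).fderiv]
    simp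
  have hvd : Continuous (fderiv ℝ v) := hv.cd.continuous_fderiv (by norm_num)
  have cs : ∀ {F : E3 → ℝ}, Continuous F → Integrable (fun x => F x * v x ^ 2) := fun hF =>
    (hF.mul hv.sq_cont).integrable_of_hasCompactSupport hv.sq_cs.mul_left
  have i1 : Integrable (fun x => ‖fderiv ℝ v x‖ ^ 2) := hv.kin_int
  have i2 : Integrable (fun x => (ka a b c ‖x‖ ^ 2 * ‖x‖ ^ 2) * v x ^ 2) :=
    cs ((hKc.pow 2).mul (continuous_norm.pow 2))
  have i3 : Integrable (fun x => (3 * ka a b c ‖x‖ + deriv (ka a b c) ‖x‖ * ‖x‖) * v x ^ 2) :=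
    cs ((hKc.const_mul 3).add (hdKc.mul continuous_norm))
  have i4 : Integrable (fun x => -(fderiv ℝ (fun x => v x ^ 2) x x * ka a b c ‖x‖)) := by
    simp only [hfd]
    refine Continuous.integrable_of_hasCompactSupport (by
      have : Continuous (fun x => fderiv ℝ v x x) := hvd.clm_apply continuous_id
      exact (((hv.cont.const_mul 2).mul this).mul hKc).neg) ?_
    obtain ⟨K, hK, hz⟩ := exists_compact_iff_hasCompactSupport.mpr hv.cs
    refine exists_compact_iff_hasCompactSupport.mp ⟨K, hK, fun x hx => ?_⟩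
    rw [hz x hx]; simp
  have h3 : ∫ x, (3 * ka a b c ‖x‖ + deriv (ka a b c) ‖x‖ * ‖x‖) * v x ^ 2 ≤
      Kin v + ∫ x, (ka a b c ‖x‖ ^ 2 * ‖x‖ ^ 2) * v x ^ 2 := by
    have h4 : ∫ x, (3 * ka a b c ‖x‖ + deriv (ka a b c) ‖x‖ * ‖x‖) * v x ^ 2 =
        ∫ x, -(fderiv ℝ (fun x => v x ^ 2) x x * ka a b c ‖x‖) := by
      rw [integral_neg, h1, neg_neg]
    rw [h4]
    unfold Kin
    rw [← integral_add i1 i2]
    refine integral_mono i4 (i1.add i2) fun x => ?_
    simp only [hfd]
    have h5 := ContinuousLinearMap.le_opNorm (fderiv ℝ v x) x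
    rw [Real.norm_eq_abs] at h5
    set k := ka a b c ‖x‖
    set d := fderiv ℝ v x x
    set D := ‖fderiv ℝ v x‖
    have h6 : -(2 * v x * d * k) ≤ 2 * (|v x| * |k|) * |d| := by
      have := neg_abs_le (2 * v x * d * k)
      have e : |2 * v x * d * k| = 2 * (|v x| * |k|) * |d| := by
        rw [abs_mul, abs_mul, abs_mul, abs_of_pos (by norm_num : (0:ℝ) < 2)]; ring
      linarith [neg_le_abs (2 * v x * d * k)]
    have h7 : 2 * (|v x| * |k|) * |d| ≤ 2 * (|v x| * |k|) * (D * ‖x‖) :=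
      mul_le_mul_of_nonneg_left h5 (by positivity)
    have h8 : 2 * (|v x| * |k|) * (D * ‖x‖) ≤ D ^ 2 + (|k| * ‖x‖ * |v x|) ^ 2 := by
      nlinarith [sq_nonneg (D - |k| * ‖x‖ * |v x|)]
    have h9 : (|k| * ‖x‖ * |v x|) ^ 2 = k ^ 2 * ‖x‖ ^ 2 * v x ^ 2 := by
      rw [mul_pow, mul_pow, sq_abs, sq_abs]
    linarith
  have h5 : ∫ x, v x ^ 2 * (Sm (‖x‖ / a - 1) * Wf b c ‖x‖) ≤
      ∫ x, ((3 * ka a b c ‖x‖ + deriv (ka a b c) ‖x‖ * ‖x‖) * v x ^ 2 -
        (ka a b c ‖x‖ ^ 2 * ‖x‖ ^ 2) * v x ^ 2) := by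
    have hm : Measurable (fun x : E3 => Wf b c ‖x‖) := by
      unfold Wf
      fun_prop
    have hS : Continuous (fun x : E3 => Sm (‖x‖ / a - 1)) :=
      Sm_cd.continuous.comp ((continuous_norm.div_const a).sub continuous_const)
    refine integral_mono ?_ (i3.sub i2) fun x => ?_
    · refine (vW_int hv hb hc).mono' (hv.sq_cont.measurable.mul
        (hS.measurable.mul hm)).aestronglyMeasurable (ae_of_all _ fun x => ?_)
      rw [Real.norm_eq_abs, abs_mul, abs_mul, abs_of_nonneg (sq_nonneg (v x)),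
        abs_of_nonneg (Sm_nn _)]
      refine mul_le_mul_of_nonneg_left ?_ (sq_nonneg _)
      exact mul_le_of_le_one_left (abs_nonneg _) (Sm_le _)
    · simp only
      rw [← sub_mul, mul_comm (v x ^ 2)]
      refine mul_le_mul_of_nonneg_right ?_ (sq_nonneg _)
      by_cases hx0 : ‖x‖ ≤ a
      · rw [chi_lo ha hx0, zero_mul]
        have h6 : deriv (ka a b c) ‖x‖ = 0 := by
          have hcont := hkc.continuous_deriv (by norm_num)
          have h7 : ∀ s, s < a → deriv (ka a b c) s = 0 := by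
            intro s hs
            have : (ka a b c) =ᶠ[𝓝 s] fun _ => 0 := by
              filter_upwards [Iio_mem_nhds hs] with t ht
              exact ka_lo ha (le_of_lt ht)
            rw [this.deriv_eq, deriv_const]
          have h8 : closure (Iio a) ⊆ {s | deriv (ka a b c) s = 0} :=
            (isClosed_eq hcont continuous_const).closure_subset_iff.mpr h7
          rw [closure_Iio] at h8
          exact h8 hx0
        rw [ka_lo ha hx0, h6]
        simp
      · have hr : 0 < ‖x‖ := lt_trans ha (not_le.mp hx0)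
        rw [ka_deriv hc hr]
        set s := Sm (‖x‖ / a - 1) with hs
        set r := ‖x‖
        have hs0 : 0 ≤ s := Sm_nn _
        have hs1 : s ≤ 1 := Sm_le _
        have hd : 0 ≤ dS (r / a - 1) / a * (b / (c + r)) := by
          have := dS_nn (r / a - 1)
          positivity
        have e1 : ka a b c r ^ 2 * r ^ 2 = s ^ 2 * (b ^ 2 / (c + r) ^ 2) := by
          unfold ka
          rw [← hs]
          field_simp
        have e2 : s * Wf b c r = s * (2 * b / (r * (c + r)) - b / (c + r) ^ 2) -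
            s * (b ^ 2 / (c + r) ^ 2) := by
          unfold Wf
          rw [add_div]; ring
        rw [e1, e2]
        have h10 : s ^ 2 * (b ^ 2 / (c + r) ^ 2) ≤ s * (b ^ 2 / (c + r) ^ 2) := by
          refine mul_le_mul_of_nonneg_right ?_ (by positivity)
          nlinarith
        linarith
  rw [integral_sub i3 i2] at h5
  linarith

/-- **The Hardy type bound.** -/
theorem kin_ge {v : E3 → ℝ} (hv : Adm v) (hb : 0 < b) (hc : 0 < c) :
    Integrable (fun x => v x ^ 2 * Wf b c ‖x‖) ∧ ∫ x, v x ^ 2 * Wf b c ‖x‖ ≤ Kin v := by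
  have hm : Measurable (fun x : E3 => Wf b c ‖x‖) := by
    unfold Wf
    fun_prop
  refine ⟨(vW_int hv hb hc).mono' (hv.sq_cont.measurable.mul hm).aestronglyMeasurable
    (ae_of_all _ fun x => by
      rw [Real.norm_eq_abs, abs_mul, abs_of_nonneg (sq_nonneg (v x))]), ?_⟩
  set δ : ℕ → ℝ := fun j => 1 / ((j : ℝ) + 1) with hδ
  have hδ0 : ∀ j, 0 < δ j := fun j => by simp only [hδ]; positivity
  have hlim : Tendsto (fun j => ∫ x, v x ^ 2 * (Sm (‖x‖ / δ j - 1) * Wf b c ‖x‖)) atTop
      (𝓝 (∫ x, v x ^ 2 * Wf b c ‖x‖)) := by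
    refine tendsto_integral_of_dominated_convergence (fun x => v x ^ 2 * |Wf b c ‖x‖|)
      (fun j => ?_) (vW_int hv hb hc) (fun j => ae_of_all _ fun x => ?_) ?_
    · have hS : Continuous (fun x : E3 => Sm (‖x‖ / δ j - 1)) :=
        Sm_cd.continuous.comp ((continuous_norm.div_const _).sub continuous_const)
      exact (hv.sq_cont.measurable.mul (hS.measurable.mul hm)).aestronglyMeasurable
    · rw [Real.norm_eq_abs, abs_mul, abs_mul, abs_of_nonneg (sq_nonneg (v x)),
        abs_of_nonneg (Sm_nn _)]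
      refine mul_le_mul_of_nonneg_left ?_ (sq_nonneg _)
      exact mul_le_of_le_one_left (abs_nonneg _) (Sm_le _)
    · filter_upwards [Pool.Agent.Helper436.TFW.ae_ne (0 : E3)] with x hx
      have hr : 0 < ‖x‖ := norm_pos_iff.mpr hx
      refine tendsto_const_nhds.congr' ?_
      obtain ⟨N, hN⟩ := exists_nat_gt (2 / ‖x‖)
      filter_upwards [eventually_ge_atTop N] with j hj
      rw [Sm_one, one_mul]
      simp only [hδ]
      rw [div_div_eq_mul_div, div_one]
      have h1 : (N : ℝ) ≤ (j : ℝ) := by exact_mod_cast hj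
      rw [div_lt_iff₀ hr] at hN
      nlinarith
  exact le_of_tendsto' hlim fun j => kin_cut_ineq hv hb hc (hδ0 j)

end Pool.Agent.X91.FA
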