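import Pool.Agent.X91.FA.Kin
import Pool.Agent.X91.FA.Dens2
import Pool.Agent.X91.FA.Cert
import Pool.Agent.X91.TW.Ex1

/-!
# Lower bound for the Fermi-Amaldi energy at `z = 1`, `N = 2`
-/

set_option autoImplicit false

open MeasureTheory Set Filter Topology Metric
open scoped RealInnerProductSpace ContDiff

namespace Pool.Agent.X91.FA

open Pool.Agent.X91.TW
open Pool.Agent.Helper436.TFW (Adm Kin Pot TFe Mass Dir DirH)
open Pool.Agent.Helper557.TFP (Nice pot nice_bound TF_E1_meas TF_E1_bdd TF_E1_int TF_E1_dbl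
  TF_E1_symm TF_E1_potsub)

/-- positivity of the Coulomb energy, linearised -/
lemma dir_lin {v χ : E3 → ℝ} (hv : Adm v) (hχ : Adm χ) :
    2 * (∫ x, v x ^ 2 * pot (fun y => χ y ^ 2) x) - Dir χ ≤ Dir v := by
  have h1 := DirH_nn hv hχ
  have hN1 := adm_nice hv
  have hN2 := adm_nice hχ
  have h2 : DirH (fun x => v x ^ 2 - χ x ^ 2) =
      ∫ x, (v x ^ 2 - χ x ^ 2) * pot (fun y => v y ^ 2 - χ y ^ 2) x := TF_E1_dbl _ _
  rw [h2] at h1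
  have i1 := TF_E1_int _ _ hN1.2.1 hN1
  have i2 := TF_E1_int _ _ hN2.2.1 hN2
  have i3 := TF_E1_int _ _ hN1.2.1 hN2
  have i4 := TF_E1_int _ _ hN2.2.1 hN1
  have e2 := TF_E1_symm _ _ hN1 hN2
  have e4 : ∀ x, (v x ^ 2 - χ x ^ 2) * pot (fun y => v y ^ 2 - χ y ^ 2) x =
      v x ^ 2 * pot (fun y => v y ^ 2) x + (-1) * (v x ^ 2 * pot (fun y => χ y ^ 2) x) +
      (-1) * (χ x ^ 2 * pot (fun y => v y ^ 2) x) + 1 * (χ x ^ 2 * pot (fun y => χ y ^ 2) x) := by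
    intro x
    rw [TF_E1_potsub _ _ hN1 hN2]
    ring
  simp only [e4] at h1
  rw [(lin4 i1 i3 i4 i2 (-1) (-1) 1).2, ← e2] at h1
  rw [Dir_eq v, Dir_eq χ]
  linarith

/-- Young's inequality for the Thomas-Fermi term -/
lemma young_tf {v w δ : ℝ} (hδ : 0 < δ) (hw : 0 ≤ w) :
    v ^ 2 * w ^ 2 ≤ 3 / 5 * δ ^ 2 * |v| ^ ((10 : ℝ) / 3) + 2 / 5 * (δ ^ 3)⁻¹ * w ^ 5 := by
  set t := |v| ^ ((2 : ℝ) / 3) with ht
  have ht0 : 0 ≤ t := Real.rpow_nonneg (abs_nonneg v) _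
  have h5 : |v| ^ ((10 : ℝ) / 3) = t ^ 5 := by
    rw [ht, ← Real.rpow_natCast, ← Real.rpow_mul (abs_nonneg v)]; norm_num
  have h3 : v ^ 2 = t ^ 3 := by
    have e : t ^ 3 = |v| ^ (2 : ℝ) := by
      rw [ht, ← Real.rpow_natCast, ← Real.rpow_mul (abs_nonneg v)]; norm_num
    rw [e, Real.rpow_two, sq_abs]
  obtain ⟨u, hu0, rfl⟩ : ∃ u : ℝ, 0 ≤ u ∧ w = δ * u := ⟨w / δ, by positivity, by field_simp⟩
  rw [h5, h3]
  have key : 5 * (t ^ 3 * u ^ 2) ≤ 3 * t ^ 5 + 2 * u ^ 5 := by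
    have : 0 ≤ (t - u) ^ 2 * (3 * t ^ 3 + 6 * t ^ 2 * u + 4 * t * u ^ 2 + 2 * u ^ 3) := by positivity
    nlinarith
  have e1 : 2 / 5 * (δ ^ 3)⁻¹ * (δ * u) ^ 5 = 2 / 5 * δ ^ 2 * u ^ 5 := by
    field_simp
  rw [e1]
  have h6 : 0 ≤ δ ^ 2 := by positivity
  nlinarith [mul_le_mul_of_nonneg_left key h6]

/-- the comparison profile -/
noncomputable def wp (r : ℝ) : ℝ := 7 / 5 / (r + 7 / 10)

lemma wp_int : Integrable (fun x : E3 => wp ‖x‖ ^ 5) ∧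
    ∫ x : E3, wp ‖x‖ ^ 5 = (7 / 5) ^ 5 * Real.pi / (3 * (7 / 10) ^ 2) := by
  -- the primitive of `r² (r+β)⁻⁵`
  set G : ℝ → ℝ := fun r => (7 / 5) ^ 5 * (r ^ 3 * (r + 4 * (7 / 10)) / (12 * (7 / 10) ^ 2 *
    (r + 7 / 10) ^ 4)) with hG
  have hder : ∀ r ∈ Ici (0 : ℝ), HasDerivAt G (r ^ 2 * wp r ^ 5) r := by
    intro r hr
    have hr0 : 0 ≤ r := hr
    have hp : 0 < r + 7 / 10 := by linarith
    have h1 : HasDerivAt (fun r : ℝ => r ^ 3 * (r + 4 * (7 / 10))) (3 * r ^ 2 * (r + 4 * (7 / 10)) + r ^ 3 * 1) r := by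
      refine ((hasDerivAt_pow 3 r).mul ((hasDerivAt_id r).add_const (4 * (7 / 10)))).congr_deriv ?_
      simp
    have h2 : HasDerivAt (fun r : ℝ => 12 * (7 / 10) ^ 2 * (r + 7 / 10) ^ 4)
        (12 * (7 / 10) ^ 2 * (4 * (r + 7 / 10) ^ 3)) r := by
      refine ((((hasDerivAt_id r).add_const (7 / 10)).pow 4).const_mul
        (12 * (7 / 10) ^ 2)).congr_deriv ?_
      simp
    have h3 := (h1.div h2 (by positivity)).const_mul ((7 / 5 : ℝ) ^ 5)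
    refine h3.congr_deriv ?_
    unfold wp
    field_simp
    ring
  have hlim : Tendsto G atTop (𝓝 ((7 / 5) ^ 5 * (1 / (12 * (7 / 10) ^ 2)))) := by
    have h0 : Tendsto (fun r : ℝ => (r + 7 / 10)⁻¹) atTop (𝓝 0) :=
      tendsto_inv_atTop_zero.comp (tendsto_atTop_add_const_right _ _ tendsto_id)
    have e : ∀ r : ℝ, 0 < r → G r = (7 / 5) ^ 5 * ((1 - 7 / 10 * (r + 7 / 10)⁻¹) ^ 3 *
        (1 + 3 * (7 / 10) * (r + 7 / 10)⁻¹) / (12 * (7 / 10) ^ 2)) := by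
      intro r hr
      have hp : 0 < r + 7 / 10 := by linarith
      simp only [hG]
      field_simp
      ring
    have h1 : Tendsto (fun r : ℝ => (7 / 5 : ℝ) ^ 5 * ((1 - 7 / 10 * (r + 7 / 10)⁻¹) ^ 3 *
        (1 + 3 * (7 / 10) * (r + 7 / 10)⁻¹) / (12 * (7 / 10) ^ 2))) atTop
        (𝓝 ((7 / 5 : ℝ) ^ 5 * ((1 - 7 / 10 * 0) ^ 3 * (1 + 3 * (7 / 10) * 0) / (12 * (7 / 10) ^ 2)))) :=
      ((((h0.const_mul _).const_sub 1).pow 3).mul ((h0.const_mul _).const_add 1)).div_const _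
        |>.const_mul _
    have e2 : (7 / 5 : ℝ) ^ 5 * ((1 - 7 / 10 * 0) ^ 3 * (1 + 3 * (7 / 10) * 0) / (12 * (7 / 10) ^ 2)) =
        (7 / 5) ^ 5 * (1 / (12 * (7 / 10) ^ 2)) := by norm_num
    rw [e2] at h1
    refine h1.congr' ?_
    filter_upwards [eventually_gt_atTop 0] with r hr
    exact (e r hr).symm
  have hnn : ∀ r ∈ Ioi (0 : ℝ), 0 ≤ r ^ 2 * wp r ^ 5 := by
    intro r hr
    have hr0 : 0 < r := hr
    unfold wp
    positivity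
  have hcont : ContinuousWithinAt G (Ici 0) 0 := (hder 0 self_mem_Ici).continuousAt.continuousWithinAt
  have hI : IntegrableOn (fun r => r ^ 2 * wp r ^ 5) (Ioi 0) :=
    integrableOn_Ioi_deriv_of_nonneg hcont (fun r hr => hder r (Ioi_subset_Ici_self hr)) hnn hlim
  have hV : ∫ r in Ioi (0 : ℝ), r ^ 2 * wp r ^ 5 = (7 / 5) ^ 5 * (1 / (12 * (7 / 10) ^ 2)) := by
    rw [integral_Ioi_of_hasDerivAt_of_nonneg hcont (fun r hr => hder r (Ioi_subset_Ici_self hr)) hnn hlim]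
    simp [hG]
  refine ⟨?_, ?_⟩
  · rw [integrable_fun_norm_addHaar volume (f := fun r => wp r ^ 5)]
    have h1 : Module.finrank ℝ E3 = 3 := by simp
    rw [h1]
    refine hI.congr_fun (fun r _ => ?_) measurableSet_Ioi
    simp
  · rw [rad_int (fun r => wp r ^ 5), hV]
    ring

end Pool.Agent.X91.FA
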