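import Pool.Agent.X91.FA.LB
import Pool.Agent.X91.FA.Def

/-!
# Lower bound for smooth densities
-/

set_option autoImplicit false

open MeasureTheory Set Filter Topology Metric
open scoped RealInnerProductSpace ContDiff

namespace Pool.Agent.X91.FA

open Pool.Agent.X91.TW
open Pool.Agent.Helper436.TFW (Adm Kin Pot TFe Mass Dir DirH)
open Pool.Agent.Helper557.TFP (Nice pot nice_bound TF_E1_meas TF_E1_bdd TF_E1_int TF_E1_dbl
  TF_E1_symm TF_E1_potsub)

lemma ball_self {R : ℝ} (hR : 0 < R) :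
    ∫ x in ball (0 : E3) R, Ph R ‖x‖ = 32 * Real.pi ^ 2 * R ^ 5 / 15 := by
  rw [← integral_indicator measurableSet_ball]
  have e1 : ∀ x : E3, (ball (0 : E3) R).indicator (fun x => Ph R ‖x‖) x =
      (fun r : ℝ => if r < R then 2 * Real.pi * (R ^ 2 - r ^ 2 / 3) else 0) ‖x‖ := by
    intro x
    by_cases hx : ‖x‖ < R
    · rw [indicator_of_mem (mem_ball_zero_iff.mpr hx)]
      simp only [hx, if_true]
      unfold Ph
      rw [if_pos hx.le]
    · rw [indicator_of_notMem (fun h => hx (mem_ball_zero_iff.mp h))]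
      simp only [hx, if_false]
  simp only [e1]
  rw [rad_int (fun r : ℝ => if r < R then 2 * Real.pi * (R ^ 2 - r ^ 2 / 3) else 0)]
  have e2 : ∫ r in Ioi (0 : ℝ), r ^ 2 * (if r < R then 2 * Real.pi * (R ^ 2 - r ^ 2 / 3) else 0) =
      ∫ r in Ioo 0 R, r ^ 2 * (2 * Real.pi * (R ^ 2 - r ^ 2 / 3)) := by
    rw [setIntegral_eq_of_subset_of_forall_sdiff_eq_zero (s := Ioo 0 R) measurableSet_Ioi
      (fun r hr => hr.1) ?_]
    · refine setIntegral_congr_fun measurableSet_Ioo fun r hr => ?_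
      rw [if_pos hr.2]
    · intro r hr
      have : ¬ r < R := fun h => hr.2 ⟨hr.1, h⟩
      rw [if_neg this, mul_zero]
  rw [e2, ← integral_Ioc_eq_integral_Ioo, ← intervalIntegral.integral_of_le hR.le]
  have hder : ∀ r ∈ uIcc 0 R, HasDerivAt (fun r : ℝ => 2 * Real.pi * (R ^ 2 * r ^ 3 / 3 - r ^ 5 / 15))
      (r ^ 2 * (2 * Real.pi * (R ^ 2 - r ^ 2 / 3))) r := by
    intro r _
    have h1 := (((hasDerivAt_pow 3 r).const_mul (R ^ 2)).div_const 3).sub
      ((hasDerivAt_pow 5 r).div_const 15)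
    refine (h1.const_mul (2 * Real.pi)).congr_deriv ?_
    push_cast
    ring
  rw [intervalIntegral.integral_eq_sub_of_hasDerivAt hder
    ((by fun_prop : Continuous (fun r : ℝ => r ^ 2 * (2 * Real.pi * (R ^ 2 - r ^ 2 / 3)))).intervalIntegrable _ _)]
  ring

lemma Ph_meas (s : ℝ) : Measurable (fun r : ℝ => Ph s r) := by
  unfold Ph
  exact Measurable.ite measurableSet_Iic (by fun_prop) (by fun_prop)

lemma Ph_nn {s r : ℝ} (hs : 0 < s) (hr : 0 ≤ r) : 0 ≤ Ph s r := by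
  unfold Ph
  split_ifs with h
  · have : r ^ 2 ≤ s ^ 2 := pow_le_pow_left₀ hr h 2
    have : 0 ≤ s ^ 2 - r ^ 2 / 3 := by nlinarith [sq_nonneg s]
    positivity
  · positivity

lemma Ph_le {s r : ℝ} (hs : 0 < s) (hr : 0 ≤ r) : Ph s r ≤ 2 * Real.pi * s ^ 2 := by
  unfold Ph
  have hpi := Real.pi_pos
  split_ifs with h
  · nlinarith [sq_nonneg r, mul_nonneg hpi.le (sq_nonneg r)]
  · push Not at h
    rw [div_le_iff₀ (hs.trans h)]
    have h2 : s ^ 3 ≤ s ^ 2 * r := by nlinarith [sq_nonneg s]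
    have h3 : 0 ≤ s ^ 2 * r := by positivity
    nlinarith [mul_le_mul_of_nonneg_left h2 hpi.le, mul_nonneg hpi.le h3]

/-- the density of the comparison charge -/
noncomputable def sc : ℝ := 39 / (2560 * Real.pi)

lemma sc_pos : 0 < sc := by unfold sc; positivity

/-- The comparison charge. -/
lemma exists_charge : ∃ χ : E3 → ℝ, Adm χ ∧ (∀ x : E3, sc * Ph 4 ‖x‖ ≤ pot (fun y => χ y ^ 2) x) ∧
    Dir χ ≤ 508 / 1000 := by
  let η : ContDiffBump (0 : E3) := ⟨4, 4001 / 1000, by norm_num, by norm_num⟩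
  have hs := sc_pos
  have hη1 : ∀ x : E3, ‖x‖ ≤ 4 → (η : E3 → ℝ) x = 1 := fun x hx =>
    η.one_of_mem_closedBall (by rw [mem_closedBall_zero_iff]; exact hx)
  have hη0 : ∀ x : E3, 4001 / 1000 ≤ ‖x‖ → (η : E3 → ℝ) x = 0 := fun x hx =>
    η.zero_of_le_dist (by rw [dist_zero_right]; exact hx)
  have hηd : ContDiff ℝ 1 (η : E3 → ℝ) := η.contDiff
  set χ : E3 → ℝ := fun x => √sc * η x with hχd
  have hχ : Adm χ := ⟨contDiff_const.mul hηd, η.hasCompactSupport.mul_left⟩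
  have hsq : ∀ x, χ x ^ 2 = sc * η x ^ 2 := fun x => by
    simp only [hχd]; rw [mul_pow, Real.sq_sqrt hs.le]
  have hN := adm_nice hχ
  have hη01 : ∀ x : E3, (η : E3 → ℝ) x ^ 2 ≤ 1 := fun x => pow_le_one₀ η.nonneg η.le_one
  have hint : ∀ x : E3, Integrable (fun y => χ y ^ 2 / ‖x - y‖) := fun x => by
    have := pot_int_of_nice hN x
    refine this.congr (ae_of_all _ fun y => ?_)
    simp only
    rw [norm_sub_rev]
  have hlow : ∀ x : E3, sc * Ph 4 ‖x‖ ≤ pot (fun y => χ y ^ 2) x := by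
    intro x
    obtain ⟨h1, h2⟩ := ball_pot x 4 (by norm_num)
    rw [← h2, ← integral_indicator measurableSet_ball, ← integral_const_mul]
    unfold pot
    refine integral_mono ((h1.integrable_indicator measurableSet_ball).const_mul _) (hint x)
      fun y => ?_
    simp only
    by_cases hy : y ∈ ball (0 : E3) 4
    · rw [indicator_of_mem hy, hsq, hη1 y (mem_ball_zero_iff.mp hy).le, norm_sub_rev]
      simp
      rw [div_eq_mul_inv]
    · rw [indicator_of_notMem hy, mul_zero]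
      positivity
  have hup : ∀ x : E3, pot (fun y => χ y ^ 2) x ≤ sc * Ph (4001 / 1000) ‖x‖ := by
    intro x
    obtain ⟨h1, h2⟩ := ball_pot x (4001 / 1000) (by norm_num)
    rw [← h2, ← integral_indicator measurableSet_ball, ← integral_const_mul]
    unfold pot
    refine integral_mono (hint x) ((h1.integrable_indicator measurableSet_ball).const_mul _)
      fun y => ?_
    simp only
    by_cases hy : y ∈ ball (0 : E3) (4001 / 1000)
    · rw [indicator_of_mem hy, hsq, norm_sub_rev, mul_one_div]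
      apply div_le_div_of_nonneg_right _ (norm_nonneg _)
      have := mul_le_mul_of_nonneg_left (hη01 y) hs.le
      linarith
    · rw [indicator_of_notMem hy, mul_zero, hsq]
      rw [mem_ball_zero_iff, not_lt] at hy
      rw [hη0 y hy]
      simp
  refine ⟨χ, hχ, hlow, ?_⟩
  rw [Dir_eq]
  have hR : (0:ℝ) < 4001 / 1000 := by norm_num
  have hPi : IntegrableOn (fun x : E3 => Ph (4001 / 1000) ‖x‖) (ball 0 (4001 / 1000)) := by
    refine Measure.integrableOn_of_bounded (M := 2 * Real.pi * (4001 / 1000) ^ 2)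
      measure_ball_lt_top.ne ((Ph_meas _).comp measurable_norm).aestronglyMeasurable
      (ae_of_all _ fun x => ?_)
    rw [Real.norm_eq_abs, abs_of_nonneg (Ph_nn hR (norm_nonneg _))]
    exact Ph_le hR (norm_nonneg _)
  calc ∫ x, χ x ^ 2 * pot (fun y => χ y ^ 2) x
      ≤ ∫ x, sc ^ 2 * (ball (0 : E3) (4001 / 1000)).indicator (fun x => Ph (4001 / 1000) ‖x‖) x := by
        refine integral_mono (TF_E1_int _ _ hN.2.1 hN)
          ((hPi.integrable_indicator measurableSet_ball).const_mul _) fun x => ?_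
        simp only
        by_cases hx : x ∈ ball (0 : E3) (4001 / 1000)
        · rw [indicator_of_mem hx]
          have h1 : χ x ^ 2 ≤ sc := by
            rw [hsq]
            have := mul_le_mul_of_nonneg_left (hη01 x) hs.le
            linarith
          have h2 : 0 ≤ sc * Ph (4001 / 1000) ‖x‖ := mul_nonneg hs.le (Ph_nn hR (norm_nonneg _))
          calc χ x ^ 2 * pot (fun y => χ y ^ 2) x ≤ χ x ^ 2 * (sc * Ph (4001 / 1000) ‖x‖) :=
                mul_le_mul_of_nonneg_left (hup x) (sq_nonneg _)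
            _ ≤ sc * (sc * Ph (4001 / 1000) ‖x‖) := mul_le_mul_of_nonneg_right h1 h2
            _ = _ := by ring
        · rw [indicator_of_notMem hx, mul_zero, hsq]
          rw [mem_ball_zero_iff, not_lt] at hx
          rw [hη0 x hx]
          simp
    _ = sc ^ 2 * (32 * Real.pi ^ 2 * (4001 / 1000) ^ 5 / 15) := by
        rw [integral_const_mul, integral_indicator measurableSet_ball, ball_self hR]
    _ ≤ 508 / 1000 := by
        unfold sc
        have hpi := Real.pi_pos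
        have e : (39 / (2560 * Real.pi)) ^ 2 * (32 * Real.pi ^ 2 * (4001 / 1000) ^ 5 / 15) =
            (39 / 2560) ^ 2 * (32 * (4001 / 1000) ^ 5 / 15) := by
          field_simp
        rw [e]
        norm_num

/-- the pointwise inequality -/
lemma pt_ineq {r : ℝ} (hr : 0 < r) :
    1 / r ≤ 1859 / 10000 * Wf (27 / 20) (1 / 2) r + 1 / 2 * (sc * Ph 4 r) + wp r ^ 2 + 1 / 50 := by
  have h1 : 0 < 1 / 2 + r := by linarith
  have h2 : 0 < r + 7 / 10 := by linarith
  have hpi := Real.pi_pos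
  by_cases h4 : r ≤ 4
  · have e : 1859 / 10000 * Wf (27 / 20) (1 / 2) r + 1 / 2 * (sc * Ph 4 r) + wp r ^ 2 + 1 / 50 -
        1 / r = (49 / 25 * (r * (1 / 2 + r) ^ 2) + 1859 / 10000 * (27 / 10) * ((1 / 2 + r) * (r + 7 / 10) ^ 2) - 1859 / 10000 * (27 / 20 + (27 / 20) ^ 2) * (r * (r + 7 / 10) ^ 2) + (r * (39 / 2560 * (16 - r ^ 2 / 3)) + 1 / 50 * r - 1) * ((1 / 2 + r) ^ 2 * (r + 7 / 10) ^ 2)) /
          (r * (1 / 2 + r) ^ 2 * (r + 7 / 10) ^ 2) := by
      unfold Wf wp sc Ph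
      rw [if_pos h4]
      field_simp
      ring
    have hn : 0 ≤ (49 / 25 * (r * (1 / 2 + r) ^ 2) + 1859 / 10000 * (27 / 10) * ((1 / 2 + r) * (r + 7 / 10) ^ 2) - 1859 / 10000 * (27 / 20 + (27 / 20) ^ 2) * (r * (r + 7 / 10) ^ 2) + (r * (39 / 2560 * (16 - r ^ 2 / 3)) + 1 / 50 * r - 1) * ((1 / 2 + r) ^ 2 * (r + 7 / 10) ^ 2)) := by
      rcases le_total r (1 / 4) with h | h
      · exact nin0 hr.le h
      rcases le_total r (1 / 2) with h' | h'
      · exact nin1 h h'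
      rcases le_total r 1 with h'' | h''
      · exact nin2 h' h''
      rcases le_total r 2 with h''' | h'''
      · exact nin3 h'' h'''
      · exact nin4 h''' h4
    have := div_nonneg hn (by positivity : 0 ≤ r * (1 / 2 + r) ^ 2 * (r + 7 / 10) ^ 2)
    linarith
  · have e : 1859 / 10000 * Wf (27 / 20) (1 / 2) r + 1 / 2 * (sc * Ph 4 r) + wp r ^ 2 + 1 / 50 -
        1 / r = (49 / 25 * (r * (1 / 2 + r) ^ 2) + 1859 / 10000 * (27 / 10) * ((1 / 2 + r) * (r + 7 / 10) ^ 2) - 1859 / 10000 * (27 / 20 + (27 / 20) ^ 2) * (r * (r + 7 / 10) ^ 2) + (13 / 20 + 1 / 50 * r - 1) * ((1 / 2 + r) ^ 2 * (r + 7 / 10) ^ 2)) /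
          (r * (1 / 2 + r) ^ 2 * (r + 7 / 10) ^ 2) := by
      unfold Wf wp sc Ph
      rw [if_neg h4]
      field_simp
      ring
    push Not at h4
    have hn : 0 ≤ (49 / 25 * (r * (1 / 2 + r) ^ 2) + 1859 / 10000 * (27 / 10) * ((1 / 2 + r) * (r + 7 / 10) ^ 2) - 1859 / 10000 * (27 / 20 + (27 / 20) ^ 2) * (r * (r + 7 / 10) ^ 2) + (13 / 20 + 1 / 50 * r - 1) * ((1 / 2 + r) ^ 2 * (r + 7 / 10) ^ 2)) := by
      rcases le_total r 7 with h | h
      · exact nout0 h4.le h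
      · exact nout_far h
    have := div_nonneg hn (by positivity : 0 ≤ r * (1 / 2 + r) ^ 2 * (r + 7 / 10) ^ 2)
    linarith

/-- **Lower bound for smooth densities.** -/
theorem FE_lb {v : E3 → ℝ} (hv : Adm v) (hm : Mass v ≤ 2) :
    -323 / 1000 ≤ 1859 / 10000 * Kin v + 3 / 5 * gam * TFe v - Pot 0 v + 1 / 4 * Dir v := by
  obtain ⟨χ, hχ, hlow, hdir⟩ := exists_charge
  have hpi := Real.pi_pos
  have hN := adm_nice hv
  set δ : ℝ := (3 * Real.pi ^ 2) ^ ((1 : ℝ) / 3) with hδ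
  have hδ0 : 0 < δ := Real.rpow_pos_of_pos (by positivity) _
  have hδ3 : δ ^ 3 = 3 * Real.pi ^ 2 := by
    rw [hδ, ← Real.rpow_natCast, ← Real.rpow_mul (by positivity)]; norm_num
  have hδ2 : δ ^ 2 = gam := by
    rw [hδ, gam, ← Real.rpow_natCast, ← Real.rpow_mul (by positivity)]; norm_num
  -- integrability
  obtain ⟨iW, hkin⟩ := kin_ge (b := 27 / 20) (c := 1 / 2) hv (by norm_num) (by norm_num)
  have i0 : Integrable (fun x => v x ^ 2 / ‖x‖) := by
    have := hv.pot_int 0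
    simpa using this
  have i2 := hv.sq_int
  have hwc : Continuous (fun x : E3 => wp ‖x‖) := by
    unfold wp
    refine continuous_const.div (continuous_norm.add continuous_const) fun x => ?_
    have := norm_nonneg x
    positivity
  have iw : Integrable (fun x => v x ^ 2 * wp ‖x‖ ^ 2) := hv.sq_mul_int (hwc.pow 2)
  have iP : Integrable (fun x => v x ^ 2 * (sc * Ph 4 ‖x‖)) := by
    refine (i2.const_mul (sc * (2 * Real.pi * 4 ^ 2))).mono'
      (hv.sq_cont.measurable.mul (((Ph_meas 4).comp measurable_norm).const_mul _)).aestronglyMeasurable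
      (ae_of_all _ fun x => ?_)
    have h1 := Ph_nn (s := 4) (by norm_num) (norm_nonneg x)
    have h2 := Ph_le (s := 4) (by norm_num) (norm_nonneg x)
    have h3 := sc_pos
    rw [Real.norm_eq_abs, abs_of_nonneg (by positivity)]
    have := mul_le_mul_of_nonneg_left (mul_le_mul_of_nonneg_left h2 h3.le) (sq_nonneg (v x))
    linarith
  have hPot : Pot 0 v = ∫ x, v x ^ 2 / ‖x‖ := by unfold Pot; simp
  -- main inequality
  have h1 : ∫ x, v x ^ 2 / ‖x‖ ≤ 1859 / 10000 * (∫ x, v x ^ 2 * Wf (27 / 20) (1 / 2) ‖x‖) +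
      1 / 2 * (∫ x, v x ^ 2 * (sc * Ph 4 ‖x‖)) + (∫ x, v x ^ 2 * wp ‖x‖ ^ 2) +
      1 / 50 * ∫ x, v x ^ 2 := by
    obtain ⟨j1, j2⟩ := lin4 iw iW iP i2 (1859 / 10000) (1 / 2) (1 / 50)
    have h6 : ∫ x, v x ^ 2 / ‖x‖ ≤ ∫ x, (v x ^ 2 * wp ‖x‖ ^ 2 +
        1859 / 10000 * (v x ^ 2 * Wf (27 / 20) (1 / 2) ‖x‖) + 1 / 2 * (v x ^ 2 * (sc * Ph 4 ‖x‖)) +
        1 / 50 * v x ^ 2) := by
      refine integral_mono_ae i0 j1 ?_
      filter_upwards [Pool.Agent.Helper436.TFW.ae_ne (0 : E3)] with x hx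
      have hr : 0 < ‖x‖ := norm_pos_iff.mpr hx
      have h2 := mul_le_mul_of_nonneg_left (pt_ineq hr) (sq_nonneg (v x))
      have e : v x ^ 2 * (1 / ‖x‖) = v x ^ 2 / ‖x‖ := by ring
      linarith
    rw [j2] at h6
    linarith
  -- repulsion
  have h2 := dir_lin hv hχ
  have h3 : ∫ x, v x ^ 2 * (sc * Ph 4 ‖x‖) ≤ ∫ x, v x ^ 2 * pot (fun y => χ y ^ 2) x := by
    refine integral_mono iP (TF_E1_int _ _ hN.2.1 (adm_nice hχ)) fun x => ?_
    exact mul_le_mul_of_nonneg_left (hlow x) (sq_nonneg _)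
  -- Thomas-Fermi
  have h4 : ∫ x, v x ^ 2 * wp ‖x‖ ^ 2 ≤ 3 / 5 * gam * TFe v +
      2 / 5 * (3 * Real.pi ^ 2)⁻¹ * ((7 / 5) ^ 5 * Real.pi / (3 * (7 / 10) ^ 2)) := by
    rw [← wp_int.2, ← hδ2, ← hδ3]
    unfold TFe
    rw [← integral_const_mul, ← integral_const_mul,
      ← integral_add (hv.tf_int.const_mul _) (wp_int.1.const_mul _)]
    refine integral_mono iw ((hv.tf_int.const_mul _).add (wp_int.1.const_mul _)) fun x => ?_
    simp only [Pi.add_apply]
    refine young_tf hδ0 ?_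
    unfold wp
    have := norm_nonneg x
    positivity
  have h5 : 2 / 5 * (3 * Real.pi ^ 2)⁻¹ * ((7 / 5) ^ 5 * Real.pi / (3 * (7 / 10) ^ 2)) ≤ 1555 / 10000 := by
    have e : 2 / 5 * (3 * Real.pi ^ 2)⁻¹ * ((7 / 5) ^ 5 * Real.pi / (3 * (7 / 10) ^ 2)) =
        (2 / 5 * (7 / 5) ^ 5 / (9 * (7 / 10) ^ 2)) / Real.pi := by
      field_simp
      norm_num
    rw [e, div_le_iff₀ hpi]
    have := Real.pi_gt_d2
    norm_num
    linarith
  unfold Mass at hm
  rw [hPot]
  linarith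

end Pool.Agent.X91.FA
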