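import Pool.Agent.X91.FA.Kin
import Pool.Agent.X91.TW.Dens

/-!
# The exponential trial density
-/

set_option autoImplicit false

open MeasureTheory Set Filter Topology Metric
open scoped RealInnerProductSpace ContDiff

namespace Pool.Agent.X91.FA

open Pool.Agent.X91.TW
open Pool.Agent.Helper436.TFW (Adm Kin Pot TFe Mass Dir)

lemma exp_lim {c : ℝ} (hc : 0 < c) (k : ℕ) :
    Tendsto (fun r : ℝ => r ^ k * Real.exp (-(c * r))) atTop (𝓝 0) := by
  have h1 := (Real.tendsto_pow_mul_exp_neg_atTop_nhds_zero k).comp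
    (tendsto_id.const_mul_atTop hc)
  have h2 := h1.const_mul ((c ^ k)⁻¹)
  rw [mul_zero] at h2
  refine h2.congr fun r => ?_
  simp only [Function.comp, id]
  rw [mul_pow]
  field_simp

lemma exp_line {c : ℝ} (hc : 0 < c) :
    (IntegrableOn (fun r : ℝ => r ^ 2 * Real.exp (-(c * r))) (Ioi 0) ∧
      ∫ r in Ioi (0 : ℝ), r ^ 2 * Real.exp (-(c * r)) = 2 / c ^ 3) ∧
    (IntegrableOn (fun r : ℝ => r * Real.exp (-(c * r))) (Ioi 0) ∧
      ∫ r in Ioi (0 : ℝ), r * Real.exp (-(c * r)) = 1 / c ^ 2) := by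
  have he : ∀ r : ℝ, HasDerivAt (fun r => Real.exp (-(c * r))) (-c * Real.exp (-(c * r))) r := by
    intro r
    have h1 : HasDerivAt (fun r : ℝ => -(c * r)) (-c) r := by
      refine ((hasDerivAt_id r).const_mul c).neg.congr_deriv ?_
      simp
    refine h1.exp.congr_deriv ?_
    ring
  constructor
  · set G : ℝ → ℝ := fun r => -((r ^ 2 / c + 2 * r / c ^ 2 + 2 / c ^ 3) * Real.exp (-(c * r))) with hG
    have hder : ∀ r ∈ Ici (0 : ℝ), HasDerivAt G (r ^ 2 * Real.exp (-(c * r))) r := by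
      intro r _
      have h1 : HasDerivAt (fun r : ℝ => r ^ 2 / c + 2 * r / c ^ 2 + 2 / c ^ 3)
          (2 * r / c + 2 / c ^ 2) r := by
        refine (((((hasDerivAt_pow 2 r).div_const c).add
          (((hasDerivAt_id r).const_mul 2).div_const (c ^ 2))).add_const (2 / c ^ 3))).congr_deriv ?_
        simp
      refine (h1.mul (he r)).neg.congr_deriv ?_
      field_simp
      ring
    have hlim : Tendsto G atTop (𝓝 0) := by
      have h0 := exp_lim hc 0
      have h1 := exp_lim hc 1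
      have h2 := exp_lim hc 2
      have := (((h2.const_mul (1 / c)).add (h1.const_mul (2 / c ^ 2))).add
        (h0.const_mul (2 / c ^ 3))).neg
      simp only [mul_zero, add_zero, neg_zero] at this
      refine this.congr fun r => ?_
      simp only [hG]
      ring
    have hnn : ∀ r ∈ Ioi (0 : ℝ), 0 ≤ r ^ 2 * Real.exp (-(c * r)) := fun r _ => by positivity
    have hcont : ContinuousWithinAt G (Ici 0) 0 :=
      (hder 0 self_mem_Ici).continuousAt.continuousWithinAt
    refine ⟨integrableOn_Ioi_deriv_of_nonneg hcont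
      (fun r hr => hder r (Ioi_subset_Ici_self hr)) hnn hlim, ?_⟩
    rw [integral_Ioi_of_hasDerivAt_of_nonneg hcont
      (fun r hr => hder r (Ioi_subset_Ici_self hr)) hnn hlim]
    simp [hG]
  · set G : ℝ → ℝ := fun r => -((r / c + 1 / c ^ 2) * Real.exp (-(c * r))) with hG
    have hder : ∀ r ∈ Ici (0 : ℝ), HasDerivAt G (r * Real.exp (-(c * r))) r := by
      intro r _
      have h1 : HasDerivAt (fun r : ℝ => r / c + 1 / c ^ 2) (1 / c) r :=
        ((hasDerivAt_id r).div_const c).add_const (1 / c ^ 2)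
      refine (h1.mul (he r)).neg.congr_deriv ?_
      field_simp
      ring
    have hlim : Tendsto G atTop (𝓝 0) := by
      have h0 := exp_lim hc 0
      have h1 := exp_lim hc 1
      have := ((h1.const_mul (1 / c)).add (h0.const_mul (1 / c ^ 2))).neg
      simp only [mul_zero, add_zero, neg_zero] at this
      refine this.congr fun r => ?_
      simp only [hG]
      ring
    have hnn : ∀ r ∈ Ioi (0 : ℝ), 0 ≤ r * Real.exp (-(c * r)) := fun r hr => by
      have : (0:ℝ) < r := hr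
      positivity
    have hcont : ContinuousWithinAt G (Ici 0) 0 :=
      (hder 0 self_mem_Ici).continuousAt.continuousWithinAt
    refine ⟨integrableOn_Ioi_deriv_of_nonneg hcont
      (fun r hr => hder r (Ioi_subset_Ici_self hr)) hnn hlim, ?_⟩
    rw [integral_Ioi_of_hasDerivAt_of_nonneg hcont
      (fun r hr => hder r (Ioi_subset_Ici_self hr)) hnn hlim]
    simp [hG]

lemma exp_space {c : ℝ} (hc : 0 < c) :
    (Integrable (fun x : E3 => Real.exp (-(c * ‖x‖))) ∧
      ∫ x : E3, Real.exp (-(c * ‖x‖)) = 8 * Real.pi / c ^ 3) ∧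
    (Integrable (fun x : E3 => Real.exp (-(c * ‖x‖)) / ‖x‖) ∧
      ∫ x : E3, Real.exp (-(c * ‖x‖)) / ‖x‖ = 4 * Real.pi / c ^ 2) := by
  obtain ⟨⟨a1, a2⟩, b1, b2⟩ := exp_line hc
  have h1 : Module.finrank ℝ E3 = 3 := by simp
  have key : ∀ r ∈ Ioi (0 : ℝ), r ^ 2 * (Real.exp (-(c * r)) / r) = r * Real.exp (-(c * r)) := by
    intro r hr
    have : r ≠ 0 := (mem_Ioi.mp hr).ne'
    field_simp
  refine ⟨⟨?_, ?_⟩, ?_, ?_⟩
  · rw [integrable_fun_norm_addHaar volume (f := fun r => Real.exp (-(c * r))), h1]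
    exact a1.congr_fun (fun r _ => by simp) measurableSet_Ioi
  · rw [rad_int (fun r => Real.exp (-(c * r))), a2]
    ring
  · rw [integrable_fun_norm_addHaar volume (f := fun r => Real.exp (-(c * r)) / r), h1]
    refine b1.congr_fun (fun r hr => ?_) measurableSet_Ioi
    simp only [smul_eq_mul]
    exact (key r hr).symm
  · rw [rad_int (fun r => Real.exp (-(c * r)) / r), setIntegral_congr_fun measurableSet_Ioi key, b2]
    ring

/-- regularised exponentials -/
lemma reg_hd {a ε : ℝ} (hε : 0 < ε) (x : E3) :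
    HasFDerivAt (fun x : E3 => Real.exp (-(a * √(‖x‖ ^ 2 + ε ^ 2))))
      ((-(a * Real.exp (-(a * √(‖x‖ ^ 2 + ε ^ 2))) / √(‖x‖ ^ 2 + ε ^ 2))) • innerSL ℝ x) x := by
  have h0 : 0 < ‖x‖ ^ 2 + ε ^ 2 := by positivity
  have hs : 0 < √(‖x‖ ^ 2 + ε ^ 2) := Real.sqrt_pos.mpr h0
  have h1 := ((hasStrictFDerivAt_norm_sq x).hasFDerivAt.add_const (ε ^ 2)).sqrt h0.ne'
  have h2 := ((h1.const_mul a).neg).exp
  refine h2.congr_fderiv ?_
  ext v
  simp
  field_simp

lemma wg_exp {a : ℝ} (ha : 0 < a) (M : ℝ) : WG (fun x => M * Real.exp (-(a * ‖x‖)))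
    (fun x => (-(a * (M * Real.exp (-(a * ‖x‖))) / ‖x‖)) • x) := by
  intro φ hφ hφc v
  set ε : ℕ → ℝ := fun j => 1 / ((j : ℝ) + 1) with hε
  have hε0 : ∀ j, 0 < ε j := fun j => by simp only [hε]; positivity
  have hεl : Tendsto ε atTop (𝓝 0) := tendsto_one_div_add_atTop_nhds_zero_nat
  set ψ : ℕ → E3 → ℝ := fun j x => M * Real.exp (-(a * √(‖x‖ ^ 2 + ε j ^ 2))) with hψ
  have hd : ∀ j x, HasFDerivAt (ψ j) (M • ((-(a * Real.exp (-(a * √(‖x‖ ^ 2 + ε j ^ 2))) /
      √(‖x‖ ^ 2 + ε j ^ 2))) • innerSL ℝ x)) x := fun j x => (reg_hd (hε0 j) x).const_mul M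
  have hcd : ∀ j, ContDiff ℝ 1 (ψ j) := by
    intro j
    have h1 : ContDiff ℝ 1 (fun x : E3 => √(‖x‖ ^ 2 + ε j ^ 2)) :=
      ((contDiff_norm_sq ℝ).add contDiff_const).sqrt fun x => by
        have := hε0 j
        positivity
    exact contDiff_const.mul ((contDiff_const.mul h1).neg.exp)
  have hφ1 : ContDiff ℝ 1 φ := hφ.of_le (by exact_mod_cast le_top)
  have hφd : Continuous (fun x => fderiv ℝ φ x v) :=
    (hφ1.continuous_fderiv (by norm_num)).clm_apply continuous_const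
  have hφdc : HasCompactSupport (fun x => fderiv ℝ φ x v) :=
    (hφc.fderiv ℝ).comp_left (g := fun L : E3 →L[ℝ] ℝ => L v) rfl
  have hφdi : Integrable (fun x => fderiv ℝ φ x v) := hφd.integrable_of_hasCompactSupport hφdc
  have hφi : Integrable φ := hφ1.continuous.integrable_of_hasCompactSupport hφc
  have key : ∀ j, ∫ x, ψ j x * fderiv ℝ φ x v = -∫ x, fderiv ℝ (ψ j) x v * φ x := fun j =>
    ibp (hcd j) hφ1 hφc v
  have hsq : ∀ x : E3, Tendsto (fun j => √(‖x‖ ^ 2 + ε j ^ 2)) atTop (𝓝 ‖x‖) := by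
    intro x
    have h1 : Tendsto (fun j => ‖x‖ ^ 2 + ε j ^ 2) atTop (𝓝 (‖x‖ ^ 2 + 0 ^ 2)) :=
      (hεl.pow 2).const_add _
    have h2 := (Real.continuous_sqrt.tendsto _).comp h1
    have h3 : √(‖x‖ ^ 2 + 0 ^ 2) = ‖x‖ := by
      rw [zero_pow two_ne_zero, add_zero, Real.sqrt_sq (norm_nonneg _)]
    rw [h3] at h2
    exact h2
  have hexp1 : ∀ (j : ℕ) (x : E3), Real.exp (-(a * √(‖x‖ ^ 2 + ε j ^ 2))) ≤ 1 := fun j x => by
    rw [Real.exp_le_one_iff]
    have : 0 ≤ a * √(‖x‖ ^ 2 + ε j ^ 2) := by positivity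
    linarith
  have l1 : Tendsto (fun j => ∫ x, ψ j x * fderiv ℝ φ x v) atTop
      (𝓝 (∫ x, (M * Real.exp (-(a * ‖x‖))) * fderiv ℝ φ x v)) := by
    refine tendsto_integral_of_dominated_convergence (fun x => |M| * |fderiv ℝ φ x v|)
      (fun j => ((hcd j).continuous.mul hφd).aestronglyMeasurable) (hφdi.abs.const_mul _)
      (fun j => ae_of_all _ fun x => ?_) (ae_of_all _ fun x => ?_)
    · simp only [hψ]
      rw [Real.norm_eq_abs, abs_mul, abs_mul, abs_of_pos (Real.exp_pos _)]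
      have := mul_le_mul_of_nonneg_left (hexp1 j x)
        (mul_nonneg (abs_nonneg M) (abs_nonneg (fderiv ℝ φ x v)))
      linarith
    · refine Tendsto.mul_const _ (Tendsto.const_mul _ ?_)
      exact (Real.continuous_exp.tendsto _).comp (((hsq x).const_mul a).neg)
  have l2 : Tendsto (fun j => ∫ x, fderiv ℝ (ψ j) x v * φ x) atTop
      (𝓝 (∫ x, inner ℝ ((-(a * (M * Real.exp (-(a * ‖x‖))) / ‖x‖)) • x) v * φ x)) := by
    refine tendsto_integral_of_dominated_convergence (fun x => (|M| * a * ‖v‖) * |φ x|)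
      (fun j => ((((hcd j).continuous_fderiv (by norm_num)).clm_apply
        continuous_const).mul hφ1.continuous).aestronglyMeasurable) (hφi.abs.const_mul _)
      (fun j => ae_of_all _ fun x => ?_) ?_
    · rw [(hd j x).fderiv, Real.norm_eq_abs, abs_mul]
      refine mul_le_mul_of_nonneg_right ?_ (abs_nonneg _)
      simp only [smul_apply, innerSL_apply_apply, smul_eq_mul]
      rw [abs_mul, abs_mul, abs_neg, abs_div, abs_mul, abs_of_pos ha, abs_of_pos (Real.exp_pos _),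
        abs_of_nonneg (Real.sqrt_nonneg _)]
      have hs : 0 < √(‖x‖ ^ 2 + ε j ^ 2) := Real.sqrt_pos.mpr (by have := hε0 j; positivity)
      have hxs : ‖x‖ ≤ √(‖x‖ ^ 2 + ε j ^ 2) := Real.le_sqrt_of_sq_le (by nlinarith [sq_nonneg (ε j)])
      have h3 : |inner ℝ x v| ≤ ‖x‖ * ‖v‖ := abs_real_inner_le_norm x v
      have h4 : a * Real.exp (-(a * √(‖x‖ ^ 2 + ε j ^ 2))) / √(‖x‖ ^ 2 + ε j ^ 2) * |inner ℝ x v| ≤
          a * ‖v‖ := by
        rw [div_mul_eq_mul_div, div_le_iff₀ hs]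
        calc a * Real.exp (-(a * √(‖x‖ ^ 2 + ε j ^ 2))) * |inner ℝ x v| ≤ a * 1 * (‖x‖ * ‖v‖) := by
              refine mul_le_mul ?_ h3 (abs_nonneg _) (by positivity)
              exact mul_le_mul_of_nonneg_left (hexp1 j x) ha.le
          _ ≤ a * ‖v‖ * √(‖x‖ ^ 2 + ε j ^ 2) := by
              have := mul_le_mul_of_nonneg_left hxs (by positivity : 0 ≤ a * ‖v‖)
              linarith
      have := mul_le_mul_of_nonneg_left h4 (abs_nonneg M)
      linarith
    · filter_upwards [Pool.Agent.Helper436.TFW.ae_ne (0 : E3)] with x hx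
      have hr : 0 < ‖x‖ := norm_pos_iff.mpr hx
      refine Tendsto.mul_const _ ?_
      have e1 : ∀ j, fderiv ℝ (ψ j) x v = M * (-(a * Real.exp (-(a * √(‖x‖ ^ 2 + ε j ^ 2))) /
          √(‖x‖ ^ 2 + ε j ^ 2)) * inner ℝ x v) := fun j => by
        rw [(hd j x).fderiv]
        simp
      simp only [e1]
      have e2 : inner ℝ ((-(a * (M * Real.exp (-(a * ‖x‖))) / ‖x‖)) • x) v =
          M * (-(a * Real.exp (-(a * ‖x‖)) / ‖x‖) * inner ℝ x v) := by
        rw [inner_smul_left]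
        simp
        ring
      rw [e2]
      refine Tendsto.const_mul _ (Tendsto.mul_const _ (Tendsto.neg (Tendsto.div (Tendsto.const_mul _ ?_)
        (hsq x) hr.ne')))
      exact (Real.continuous_exp.tendsto _).comp (((hsq x).const_mul a).neg)
  have l3 := l2.neg
  have l4 : Tendsto (fun j => ∫ x, ψ j x * fderiv ℝ φ x v) atTop
      (𝓝 (-∫ x, inner ℝ ((-(a * (M * Real.exp (-(a * ‖x‖))) / ‖x‖)) • x) v * φ x)) :=
    l3.congr fun j => (key j).symm
  exact tendsto_nhds_unique l1 l4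

end Pool.Agent.X91.FA
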