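import Pool.Agent.X91.FA.LB2
import Pool.Agent.X91.FA.Trial
import Pool.Agent.X91.TW.Fin

/-!
# `E(2) > E(1)` for `z = 1`
-/

set_option autoImplicit false

open MeasureTheory Set Filter Topology Metric
open scoped RealInnerProductSpace ContDiff

namespace Pool.Agent.X91.FA

open Pool.Agent.X91.TW
open Pool.Agent.Helper436.TFW (Adm Kin Pot TFe Mass Dir kin_nonneg mass_nonneg tf_nonneg dir_nonneg)
open Pool.Agent.Helper557.TFP (Nice pot nice_bound TF_E1_meas TF_E1_bdd TF_E1_int TF_E1_dbl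
  TF_E1_symm TF_E1_potsub)

lemma EFA_congr (z N : ℕ) {σ σ' : E3 → ℝ} (h : E3 → E3)
    (he : σ =ᵐ[volume] σ') : EFA z N σ h = EFA z N σ' h := by
  unfold EFA
  have h1 : ∫ x, σ x ^ (5/3 : ℝ) = ∫ x, σ' x ^ (5/3 : ℝ) :=
    integral_congr_ae (by filter_upwards [he] with x hx; rw [hx])
  have h2 : ∫ x, (z : ℝ) / ‖x‖ * σ x = ∫ x, (z : ℝ) / ‖x‖ * σ' x :=
    integral_congr_ae (by filter_upwards [he] with x hx; rw [hx])
  have h3 : ∫ x, ∫ y, σ x * σ y / ‖x - y‖ = ∫ x, ∫ y, σ' x * σ' y / ‖x - y‖ := by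
    refine integral_congr_ae ?_
    filter_upwards [he] with x hx
    refine integral_congr_ae ?_
    filter_upwards [he] with y hy
    rw [hx, hy]
  rw [h1, h2, h3]

/-- comparison with smooth densities -/
lemma EFA_approx (z N : ℕ) (hN : 1 ≤ N) {σ : E3 → ℝ} {h : E3 → E3} (H : Admis σ h)
    (hm : ∫ x, σ x = (N : ℝ)) {ε : ℝ} (hε : 0 < ε) :
    ∃ v : E3 → ℝ, Adm v ∧ Mass v ≤ N ∧
      1859 / 10000 * Kin v + 3 / 5 * gam * TFe v - z * Pot 0 v + (1 - 1 / (N : ℝ)) * (1 / 2 * Dir v) ≤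
        EFA z N σ h + ε := by
  obtain ⟨σ', H', he⟩ := AP_of H.nn H.int H.int53 H.gl H.wg
  rw [EFA_congr z N h he]
  have hm' : ∫ x, σ' x = (N : ℝ) := by rw [← integral_congr_ae he]; exact hm
  obtain ⟨w, hw, -, hwm, -, -, hwtf, hwE⟩ := dens2 (k := 1) (fun _ => (z : ℝ))
    (fun _ => Nat.cast_nonneg z) (fun _ => 0) H'
  obtain ⟨n, h1, h2, h3⟩ := (hwE ε hε).exists
  have h4 := hwtf n
  refine ⟨w n, hw n, (hwm n).trans (by rw [hm']), ?_⟩
  unfold EFA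
  have hg : 0 ≤ gam := Real.rpow_nonneg (by positivity) _
  have e1 : ∫ x, (z : ℝ) / ‖x‖ * σ' x = z * pot σ' 0 := by
    rw [← pot_eq, ← integral_const_mul]
    congr 1
    funext x
    rw [sub_zero]
    ring
  simp only [Finset.univ_unique, Finset.sum_const, Finset.card_singleton, one_smul] at h2
  rw [e1]
  have hκ0 : 0 ≤ 1 - 1 / (N : ℝ) := by
    have : (1:ℝ) ≤ N := by exact_mod_cast hN
    have : 1 / (N : ℝ) ≤ 1 := by rw [div_le_one (by linarith)]; exact this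
    linarith
  have hκ1 : 1 - 1 / (N : ℝ) ≤ 1 := by
    have : 0 ≤ 1 / (N : ℝ) := by positivity
    linarith
  set κ := 1 - 1 / (N : ℝ) with hκ
  set DD := ∫ x, ∫ y, σ' x * σ' y / ‖x - y‖ with hDD
  have h5 : κ * (1 / 2 * Dir (w n)) ≤ κ * (1 / 2 * (DD + ε / 4)) :=
    mul_le_mul_of_nonneg_left (by linarith) hκ0
  have h6 : κ * (1 / 2 * (ε / 4)) ≤ 1 * (1 / 2 * (ε / 4)) :=
    mul_le_mul_of_nonneg_right hκ1 (by positivity)
  have h7 : 3 / 5 * gam * TFe (w n) ≤ 3 / 5 * gam * ∫ x, σ' x ^ (5/3 : ℝ) :=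
    mul_le_mul_of_nonneg_left h4 (by positivity)
  nlinarith

lemma vals_bdd (z N : ℕ) (hN : 1 ≤ N) : BddBelow (Vals z N) := by
  refine ⟨-((z : ℝ) ^ 2 * N * (5000 / 1859 / 2) + (z : ℝ) * (3 / 2) * N) - 1, ?_⟩
  rintro e ⟨ρ, g, H, hm, rfl⟩
  obtain ⟨v, hv, hvm, hE⟩ := EFA_approx z N hN H hm one_pos
  have hg : 0 ≤ gam := Real.rpow_nonneg (by positivity) _
  have h1 := hv.pot_le 0
  unfold Pool.Agent.Helper436.TFW.UB at h1
  have hK := kin_nonneg (ψ := v)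
  have hM := mass_nonneg (ψ := v)
  have hT := tf_nonneg (ψ := v)
  have hD := dir_nonneg (ψ := v)
  have hκ0 : 0 ≤ 1 - 1 / (N : ℝ) := by
    have : (1:ℝ) ≤ N := by exact_mod_cast hN
    have : 1 / (N : ℝ) ≤ 1 := by rw [div_le_one (by linarith)]; exact this
    linarith
  have e1 := Real.sq_sqrt hK
  have e2 := Real.sq_sqrt hM
  set k := √(Kin v)
  set m := √(Mass v)
  have hz : (0:ℝ) ≤ z := Nat.cast_nonneg z
  have h2 : (z : ℝ) * Pot 0 v ≤ z * (k * m + 3 / 2 * Mass v) := mul_le_mul_of_nonneg_left h1 hz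
  have h3 : (z : ℝ) * (k * m) ≤ 1859 / 10000 * k ^ 2 + 5000 / 1859 / 2 * (z ^ 2 * m ^ 2) := by
    nlinarith [sq_nonneg (1859 / 5000 * k - z * m)]
  have h4 : (z : ℝ) ^ 2 * m ^ 2 ≤ z ^ 2 * N := by
    rw [e2]; exact mul_le_mul_of_nonneg_left hvm (by positivity)
  have h5 : (z : ℝ) * (3 / 2 * Mass v) ≤ z * (3 / 2 * N) :=
    mul_le_mul_of_nonneg_left (by linarith) hz
  have h6 : 0 ≤ 3 / 5 * gam * TFe v := by positivity
  have h7 : 0 ≤ (1 - 1 / (N : ℝ)) * (1 / 2 * Dir v) := by positivity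
  rw [e1] at h3
  nlinarith

/-- the trial density -/
lemma trial {a m : ℝ} (ha : 0 < a) (hm : 0 < m) :
    Admis (fun x : E3 => m * (a ^ 3 / Real.pi) * Real.exp (-(2 * a * ‖x‖)))
      (fun x => (-(a * (√(m * (a ^ 3 / Real.pi)) * Real.exp (-(a * ‖x‖))) / ‖x‖)) • x) ∧
    ∫ x : E3, m * (a ^ 3 / Real.pi) * Real.exp (-(2 * a * ‖x‖)) = m := by
  have hpi := Real.pi_pos
  set c := m * (a ^ 3 / Real.pi) with hc
  have hc0 : 0 < c := by positivity
  have hsq : ∀ x : E3, √(c * Real.exp (-(2 * a * ‖x‖))) = √c * Real.exp (-(a * ‖x‖)) := by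
    intro x
    rw [Real.sqrt_mul hc0.le]
    congr 1
    have : Real.exp (-(2 * a * ‖x‖)) = Real.exp (-(a * ‖x‖)) ^ 2 := by
      rw [← Real.exp_nat_mul]; congr 1; push_cast; ring
    rw [this, Real.sqrt_sq (Real.exp_pos _).le]
  obtain ⟨⟨j1, j2⟩, -⟩ := exp_space (c := 2 * a) (by positivity)
  refine ⟨⟨fun x => by positivity, j1.const_mul c, ?_, ?_, ?_⟩, ?_⟩
  · obtain ⟨⟨j3, j4⟩, -⟩ := exp_space (c := 5 / 3 * (2 * a)) (by positivity)
    refine (j3.const_mul (c ^ (5/3 : ℝ))).congr (ae_of_all _ fun x => ?_)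
    simp only
    rw [Real.mul_rpow hc0.le (Real.exp_pos _).le, ← Real.exp_mul]
    congr 2
    ring
  · have hgm : AEStronglyMeasurable (fun x : E3 =>
        (-(a * (√c * Real.exp (-(a * ‖x‖))) / ‖x‖)) • x) volume := by
      apply Measurable.aestronglyMeasurable
      fun_prop
    rw [memLp_two_iff_integrable_sq_norm hgm]
    refine (j1.const_mul (a ^ 2 * c)).congr ?_
    filter_upwards [Pool.Agent.Helper436.TFW.ae_ne (0 : E3)] with x hx
    have hr : 0 < ‖x‖ := norm_pos_iff.mpr hx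
    rw [norm_smul, norm_neg, Real.norm_eq_abs, abs_of_nonneg (by positivity), div_mul_cancel₀ _ hr.ne',
      mul_pow, mul_pow, Real.sq_sqrt hc0.le]
    have : Real.exp (-(2 * a * ‖x‖)) = Real.exp (-(a * ‖x‖)) ^ 2 := by
      rw [← Real.exp_nat_mul]; congr 1; push_cast; ring
    rw [this]
    ring
  · intro φ hφ hφc v
    have := wg_exp ha (√c) φ hφ hφc v
    simp only [hsq]
    exact this
  · rw [integral_const_mul, j2, hc]
    field_simp
    ring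

lemma vals_nonempty (z N : ℕ) (hN : 1 ≤ N) : (Vals z N).Nonempty := by
  have h : (0:ℝ) < N := by exact_mod_cast hN
  obtain ⟨h1, h2⟩ := trial one_pos h
  exact ⟨_, _, _, h1, h2, rfl⟩

lemma upper : Egs 1 1 ≤ -327 / 1000 := by
  have hpi := Real.pi_pos
  set a : ℝ := 13 / 20 with ha
  have ha0 : 0 < a := by rw [ha]; norm_num
  obtain ⟨h1, h2⟩ := trial ha0 one_pos
  rw [one_mul] at h1 h2
  set c := a ^ 3 / Real.pi with hc
  have hc0 : 0 < c := by positivity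
  refine (csInf_le (vals_bdd 1 1 le_rfl) ⟨_, _, h1, by rw [h2]; simp, rfl⟩).trans ?_
  unfold EFA
  obtain ⟨⟨j1, j2⟩, j5, j6⟩ := exp_space (c := 2 * a) (by positivity)
  obtain ⟨⟨j3, j4⟩, -⟩ := exp_space (c := 5 / 3 * (2 * a)) (by positivity)
  have e1 : ∫ x : E3, ‖(-(a * (√c * Real.exp (-(a * ‖x‖))) / ‖x‖)) • x‖ ^ 2 = a ^ 2 := by
    have : ∫ x : E3, ‖(-(a * (√c * Real.exp (-(a * ‖x‖))) / ‖x‖)) • x‖ ^ 2 =
        ∫ x : E3, a ^ 2 * c * Real.exp (-(2 * a * ‖x‖)) := by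
      refine integral_congr_ae ?_
      filter_upwards [Pool.Agent.Helper436.TFW.ae_ne (0 : E3)] with x hx
      have hr : 0 < ‖x‖ := norm_pos_iff.mpr hx
      rw [norm_smul, norm_neg, Real.norm_eq_abs, abs_of_nonneg (by positivity),
        div_mul_cancel₀ _ hr.ne', mul_pow, mul_pow, Real.sq_sqrt hc0.le]
      have : Real.exp (-(2 * a * ‖x‖)) = Real.exp (-(a * ‖x‖)) ^ 2 := by
        rw [← Real.exp_nat_mul]; congr 1; push_cast; ring
      rw [this]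
      ring
    rw [this, integral_const_mul, j2, hc]
    field_simp
    ring
  have e2 : ∫ x : E3, (c * Real.exp (-(2 * a * ‖x‖))) ^ (5/3 : ℝ) =
      c ^ (5/3 : ℝ) * (8 * Real.pi / (5 / 3 * (2 * a)) ^ 3) := by
    rw [← j4, ← integral_const_mul]
    congr 1
    funext x
    rw [Real.mul_rpow hc0.le (Real.exp_pos _).le, ← Real.exp_mul]
    congr 2
    ring
  have e3 : ∫ x : E3, ((1 : ℕ) : ℝ) / ‖x‖ * (c * Real.exp (-(2 * a * ‖x‖))) = a := by
    have : ∫ x : E3, ((1 : ℕ) : ℝ) / ‖x‖ * (c * Real.exp (-(2 * a * ‖x‖))) =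
        ∫ x : E3, c * (Real.exp (-(2 * a * ‖x‖)) / ‖x‖) := by
      congr 1
      funext x
      push_cast
      ring
    rw [this, integral_const_mul, j6, hc]
    field_simp
    ring
  -- the Thomas-Fermi term
  have e4 : gam * c ^ (5/3 : ℝ) ≤ 4462 / 1000 * a ^ 5 / Real.pi := by
    have hg : 0 ≤ gam := Real.rpow_nonneg (by positivity) _
    have hcr : 0 ≤ c ^ (5/3 : ℝ) := Real.rpow_nonneg hc0.le _
    refine (pow_le_pow_iff_left₀ (mul_nonneg hg hcr) (by positivity) (by norm_num : (3:ℕ) ≠ 0)).mp ?_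
    have f1 : gam ^ 3 = (3 * Real.pi ^ 2) ^ 2 := by
      unfold gam
      rw [← Real.rpow_natCast, ← Real.rpow_mul (by positivity)]
      norm_num
    have f2 : (c ^ (5/3 : ℝ)) ^ 3 = c ^ 5 := by
      rw [← Real.rpow_natCast, ← Real.rpow_mul hc0.le]
      norm_num
    rw [mul_pow, f1, f2, hc]
    have f3 : (3 * Real.pi ^ 2) ^ 2 * (a ^ 3 / Real.pi) ^ 5 = 9 * a ^ 15 / Real.pi := by
      field_simp
      ring
    have f4 : (4462 / 1000 * a ^ 5 / Real.pi) ^ 3 = (4462 / 1000) ^ 3 * a ^ 15 / Real.pi ^ 3 := by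
      ring
    rw [f3, f4, div_le_div_iff₀ hpi (by positivity)]
    have f5 := Real.pi_lt_d6
    have f6 : 9 * Real.pi ^ 2 ≤ (4462 / 1000) ^ 3 := by nlinarith
    have f7 := mul_le_mul_of_nonneg_left f6 (by positivity : 0 ≤ a ^ 15 * Real.pi)
    nlinarith
  rw [e1, e2, e3]
  have e5 : gam * c ^ (5/3 : ℝ) * (8 * Real.pi / (5 / 3 * (2 * a)) ^ 3) ≤
      4462 / 1000 * a ^ 5 / Real.pi * (8 * Real.pi / (5 / 3 * (2 * a)) ^ 3) :=
    mul_le_mul_of_nonneg_right e4 (by positivity)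
  have e6 : 4462 / 1000 * a ^ 5 / Real.pi * (8 * Real.pi / (5 / 3 * (2 * a)) ^ 3) =
      4462 / 1000 * (27 * 8 / 1000) * a ^ 2 := by
    field_simp
    norm_num
  rw [e6] at e5
  have e7 : (1 - 1 / ((1 : ℕ) : ℝ)) = 0 := by norm_num
  rw [e7, zero_mul, add_zero]
  have e8 : 3 / 5 * gam * (c ^ (5/3 : ℝ) * (8 * Real.pi / (5 / 3 * (2 * a)) ^ 3)) =
    3 / 5 * (gam * c ^ (5/3 : ℝ) * (8 * Real.pi / (5 / 3 * (2 * a)) ^ 3)) := by ring
  rw [e8]
  have e9 : a ^ 2 = 169 / 400 := by rw [ha]; norm_num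
  rw [e9] at e5 ⊢
  have e10 : a = 13 / 20 := ha
  linarith

lemma lower : -323 / 1000 ≤ Egs 1 2 := by
  refine le_csInf (vals_nonempty 1 2 (by norm_num)) ?_
  rintro e ⟨ρ, g, H, hm, rfl⟩
  refine le_of_forall_pos_le_add fun ε hε => ?_
  obtain ⟨v, hv, hvm, hE⟩ := EFA_approx 1 2 (by norm_num) H hm hε
  have h1 := FE_lb hv (by exact_mod_cast hvm)
  have h2 : (1 - 1 / ((2 : ℕ) : ℝ)) * (1 / 2 * Dir v) = 1 / 4 * Dir v := by
    push_cast
    ring
  rw [h2] at hE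
  push_cast at hE
  linarith

end Pool.Agent.X91.FA
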